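import Pool.Agent.K4H49.FR.Layer

/-!
# All sizes
-/

namespace Pool.Agent.K4H49.FR

open MvPolynomial

lemma Cert.mono {ι : Type*} {rows rows' : Set (ι × ι)} {wx wy : ι → ι → ℕ}
    {p : ι × ι → ℕ} {kd : ι × ι → Bool} {kk : ι × ι → ι} {pv tp : ι × ι → ι × ι}
    (C : Cert rows wx wy p kd kk pv tp) (h : rows' ⊆ rows) : Cert rows' wx wy p kd kk pv tp where
  L0 f hf := C.L0 f (h hf)
  L1 f hf := C.L1 f (h hf)
  L2 f hf := C.L2 f (h hf)
  Ca f hf g hg := C.Ca f (h hf) g (h hg)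
  Cb f hf g hg := C.Cb f (h hf) g (h hg)
  P1 f hf g hg := C.P1 f (h hf) g (h hg)
  P2 f hf := C.P2 f (h hf)
  P3 f hf g hg := C.P3 f (h hf) g (h hg)
  Q f hf g hg := C.Q f (h hf) g (h hg)

set_option synthInstance.maxSize 100000 in
set_option synthInstance.maxHeartbeats 4000000 in
lemma pos4 : ∀ i < 4, ∀ j < 4, Rw 0 i j → 1 ≤ p4 i j := by decide +kernel

set_option synthInstance.maxSize 100000 in
set_option synthInstance.maxHeartbeats 4000000 in
lemma pos5 : ∀ i < 5, ∀ j < 5, Rw 1 i j → 1 ≤ p5 i j := by decide +kernel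

theorem exists_ncert (n : ℕ) (hn : 3 ≤ n) : ∃ (wx wy p : ℕ → ℕ → ℕ) (kd : ℕ → ℕ → Bool)
    (kk pc t1 t2 : ℕ → ℕ → ℕ), NCert n (n % 2) wx wy p kd kk pc t1 t2 := by
  rcases Nat.lt_or_ge n 4 with h | h
  · have : n = 3 := by omega
    subst this
    exact ⟨_, _, _, _, _, _, _, _, cert3⟩
  rcases Nat.mod_two_eq_zero_or_one n with h2 | h2
  · obtain ⟨La, rfl⟩ : ∃ La, n = 4 + 2 * La := ⟨(n - 4) / 2, by omega⟩
    rw [h2]
    exact ⟨_, _, _, _, _, _, _, _, step cert4 (by omega) (by omega) (by omega) pos4⟩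
  · obtain ⟨La, rfl⟩ : ∃ La, n = 5 + 2 * La := ⟨(n - 5) / 2, by omega⟩
    rw [h2]
    exact ⟨_, _, _, _, _, _, _, _, step cert5 (by omega) (by omega) (by omega) pos5⟩

/-- the positions in the standard labelling -/
def stdRows (n : ℕ) : Set (Fin n × Fin n) := rowsN n (n % 2)

theorem std_main (K : Type*) [Field K] {p0 : ℕ} (hp : p0.Prime) [CharP K p0] (n : ℕ) (hn : 3 ≤ n)
    (rows : Set (Fin n × Fin n)) (h : rows ⊆ stdRows n) :
    IsDomain (MvPolynomial (Vr (Fin n)) K ⧸ Ideal.span (cc K '' rows)) ∧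
      Split (MvPolynomial (Vr (Fin n)) K ⧸ Ideal.span (cc K '' rows)) p0 := by
  obtain ⟨wx, wy, p, kd, kk, pc, t1, t2, C⟩ := exists_ncert n hn
  exact Cert.main K hp ((C.toCert (by omega)).mono h)

/-- the relabelling on numbers -/
def eN (n i : ℕ) : ℕ :=
  if 2 * i + 1 = n then 0 else if 2 * i + 1 < n then n % 2 + 2 * i
    else n % 2 + 2 * (n - 1 - i) + 1

lemma eN_lt {n i : ℕ} (hi : i < n) : eN n i < n := by
  unfold eN; split_ifs <;> omega

lemma eN_inj {n i j : ℕ} (hi : i < n) (hj : j < n) (h : eN n i = eN n j) : i = j := by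
  unfold eN at h; split_ifs at h <;> omega

lemma eN_rev {n i : ℕ} (hi : i < n) : eN n (n - 1 - i) = tau (n % 2) (eN n i) := by
  unfold eN tau; split_ifs <;> omega

noncomputable def eF (n : ℕ) : Fin n ≃ Fin n :=
  Equiv.ofBijective (fun i => (⟨eN n i, eN_lt i.2⟩ : Fin n))
    (Finite.injective_iff_bijective.1 fun i j h =>
      Fin.ext (eN_inj i.2 j.2 (congrArg Fin.val h)))

lemma eF_val (n : ℕ) (i : Fin n) : (eF n i : ℕ) = eN n i := rfl

lemma eF_rev (n : ℕ) (i : Fin n) : (eF n (Fin.rev i) : ℕ) = tau (n % 2) (eF n i) := by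
  rw [eF_val, eF_val, ← eN_rev i.2]
  congr 1
  rw [Fin.val_rev]; omega

section rename

variable {ι : Type*} [Fintype ι] (K : Type*) [Field K]

/-- relabelling of the variables -/
noncomputable def rn (e : ι ≃ ι) : MvPolynomial (Vr ι) K ≃ₐ[K] MvPolynomial (Vr ι) K :=
  renameEquiv K (Equiv.sumCongr (Equiv.prodCongr e e) (Equiv.prodCongr e e))

lemma rn_cc (e : ι ≃ ι) (f : ι × ι) : rn K e (cc K f) = cc K (e f.1, e f.2) := by
  unfold rn cc
  rw [map_sum]
  refine (Finset.sum_congr rfl fun k _ => ?_).trans (Equiv.sum_comp e (fun k =>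
    X (Sum.inl (e f.1, k)) * X (Sum.inr (k, e f.2)) -
      X (Sum.inl (k, e f.2)) * X (Sum.inr (e f.1, k))))
  simp

lemma rn_map (e : ι ≃ ι) (rows : Set (ι × ι)) :
    Ideal.span (cc K '' (Prod.map e e '' rows)) =
      (Ideal.span (cc K '' rows)).map
        ((rn K e).toRingEquiv : MvPolynomial (Vr ι) K →+* MvPolynomial (Vr ι) K) := by
  rw [Ideal.map_span]
  congr 1
  rw [Set.image_image, Set.image_image]
  refine Set.image_congr fun f _ => ?_
  exact (rn_cc K e f).symm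

/-- the isomorphism of the quotients -/
noncomputable def rnq (e : ι ≃ ι) (rows : Set (ι × ι)) :
    (MvPolynomial (Vr ι) K ⧸ Ideal.span (cc K '' rows)) ≃+*
      (MvPolynomial (Vr ι) K ⧸ Ideal.span (cc K '' (Prod.map e e '' rows))) :=
  Ideal.quotientEquiv _ _ (rn K e).toRingEquiv (rn_map K e rows)

lemma transport (e : ι ≃ ι) (rows : Set (ι × ι)) {p0 : ℕ}
    (h : IsDomain (MvPolynomial (Vr ι) K ⧸ Ideal.span (cc K '' (Prod.map e e '' rows))) ∧
      Split (MvPolynomial (Vr ι) K ⧸ Ideal.span (cc K '' (Prod.map e e '' rows))) p0) :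
    IsDomain (MvPolynomial (Vr ι) K ⧸ Ideal.span (cc K '' rows)) ∧
      Split (MvPolynomial (Vr ι) K ⧸ Ideal.span (cc K '' rows)) p0 := by
  obtain ⟨h1, h2⟩ := h
  exact ⟨MulEquiv.isDomain _ (rnq K e rows).toMulEquiv, h2.of_ringEquiv (rnq K e rows).symm⟩

/-- the trace of the commutator vanishes -/
lemma sum_cc : ∑ i : ι, cc K (i, i) = 0 := by
  unfold cc
  simp only [Finset.sum_sub_distrib]
  rw [sub_eq_zero, Finset.sum_comm]

/-- one diagonal entry may be dropped -/
lemma span_drop [DecidableEq ι] (rows : Set (ι × ι)) (a : ι) (h : ∀ i, i ≠ a → (i, i) ∈ rows) :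
    Ideal.span (cc K '' (insert (a, a) rows)) = Ideal.span (cc K '' rows) := by
  refine le_antisymm ?_ (Ideal.span_mono (Set.image_mono (Set.subset_insert _ _)))
  rw [Ideal.span_le]
  rintro _ ⟨f, hf, rfl⟩
  rcases hf with rfl | hf
  · have h1 := sum_cc (ι := ι) K
    rw [← Finset.add_sum_erase _ _ (Finset.mem_univ a)] at h1
    have h2 : cc K (a, a) = - ∑ x ∈ Finset.univ.erase a, cc K (x, x) := eq_neg_of_add_eq_zero_left h1
    rw [h2]
    refine (Ideal.neg_mem_iff _).2 (Ideal.sum_mem _ fun i hi => Ideal.subset_span ⟨(i, i), ?_, rfl⟩)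
    exact h i (Finset.ne_of_mem_erase hi)
  · exact Ideal.subset_span ⟨f, hf, rfl⟩

end rename

/-- the ideal of the antidiagonal entries -/
theorem J_main (K : Type*) [Field K] {p0 : ℕ} (hp : p0.Prime) [CharP K p0] (n : ℕ) (hn : 3 ≤ n) :
    IsDomain (MvPolynomial (Vr (Fin n)) K ⧸ Ideal.span (cc K '' {f | f.2 = Fin.rev f.1})) ∧
      Split (MvPolynomial (Vr (Fin n)) K ⧸ Ideal.span (cc K '' {f | f.2 = Fin.rev f.1})) p0 := by
  refine transport K (eF n) _ (std_main K hp n hn _ ?_)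
  rintro _ ⟨⟨i, j⟩, hij, rfl⟩
  simp only [Set.mem_setOf_eq] at hij
  subst hij
  show Rw (n % 2) (eF n i : ℕ) (eF n (Fin.rev i) : ℕ)
  rw [eF_rev]
  by_cases h : (eF n i : ℕ) = tau (n % 2) (eF n i)
  · refine Or.inr ⟨h, ?_⟩
    intro h1
    rw [h1] at h
    unfold tau at h
    split_ifs at h <;> omega
  · exact Or.inl ⟨rfl, h⟩

/-- the ideal of the diagonal and the antidiagonal entries -/
theorem I_main (K : Type*) [Field K] {p0 : ℕ} (hp : p0.Prime) [CharP K p0] (n : ℕ) (hn : 3 ≤ n) :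
    IsDomain (MvPolynomial (Vr (Fin n)) K ⧸
      Ideal.span (cc K '' {f | f.2 = f.1 ∨ f.2 = Fin.rev f.1})) ∧
      Split (MvPolynomial (Vr (Fin n)) K ⧸
      Ideal.span (cc K '' {f | f.2 = f.1 ∨ f.2 = Fin.rev f.1})) p0 := by
  refine transport K (eF n) _ ?_
  have h1 : (Prod.map (eF n) (eF n) '' {f : Fin n × Fin n | f.2 = f.1 ∨ f.2 = Fin.rev f.1}) =
      insert ((⟨1, by omega⟩ : Fin n), (⟨1, by omega⟩ : Fin n)) (stdRows n) := by
    ext ⟨a, b⟩
    constructor
    · rintro ⟨⟨i, j⟩, hij, h⟩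
      simp only [Prod.map_apply, Prod.mk.injEq] at h
      obtain ⟨rfl, rfl⟩ := h
      rcases hij with hij | hij
      · simp only at hij
        subst hij
        by_cases h2 : (eF n j : ℕ) = 1
        · left
          rw [Prod.mk.injEq]
          exact ⟨Fin.ext h2, Fin.ext h2⟩
        · exact Or.inr (Or.inr ⟨rfl, h2⟩)
      · simp only at hij
        subst hij
        right
        show Rw (n % 2) (eF n i : ℕ) (eF n (Fin.rev i) : ℕ)
        rw [eF_rev]
        by_cases h : (eF n i : ℕ) = tau (n % 2) (eF n i)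
        · refine Or.inr ⟨h, ?_⟩
          intro h1
          rw [h1] at h
          unfold tau at h
          split_ifs at h <;> omega
        · exact Or.inl ⟨rfl, h⟩
    · rintro (h | h)
      · rw [Prod.mk.injEq] at h
        obtain ⟨h2, h3⟩ := h
        refine ⟨((eF n).symm a, (eF n).symm b), Or.inl ?_, ?_⟩
        · simp [h2, h3]
        · simp
      · refine ⟨((eF n).symm a, (eF n).symm b), ?_, by simp⟩
        have h' : Rw (n % 2) (a : ℕ) (b : ℕ) := h
        rcases h' with ⟨h2, h3⟩ | ⟨h2, h3⟩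
        · right
          simp only
          rw [Equiv.symm_apply_eq]
          refine Fin.ext ?_
          rw [eF_rev, Equiv.apply_symm_apply, h2]
        · left
          simp only
          rw [Fin.ext h2]
  rw [h1, span_drop]
  · exact std_main K hp n hn _ subset_rfl
  · intro i hi
    exact Or.inr ⟨rfl, fun h => hi (Fin.ext h)⟩

end Pool.Agent.K4H49.FR
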