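import Pool.Agent.K4H49.FR.Data

/-!
# The certificates for `n = 3, 4, 5`
-/

namespace Pool.Agent.K4H49.FR

set_option synthInstance.maxSize 100000
set_option synthInstance.maxHeartbeats 4000000

/-- entry of a table -/
def tb (L : List (List ℕ)) (i j : ℕ) : ℕ := (L.getD i []).getD j 0

def x3 : ℕ → ℕ → ℕ := tb [[1,6,3], [1,8,3], [3,4,5]]
def y3 : ℕ → ℕ → ℕ := tb [[6,8,0], [4,6,0], [0,0,2]]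
def p3 : ℕ → ℕ → ℕ := tb [[7,0,0], [0,0,9], [0,10,6]]
def d3 (i j : ℕ) : Bool := (tb [[1,0,0], [0,0,0], [0,1,1]] i j) == 1
def k3 : ℕ → ℕ → ℕ := tb [[1,0,0], [0,0,1], [0,0,1]]
def c3 : ℕ → ℕ → ℕ := tb [[1,0,0], [0,0,2], [0,1,0]]
def s3 : ℕ → ℕ → ℕ := tb [[1,0,0], [0,0,1], [0,1,0]]
def t3 : ℕ → ℕ → ℕ := tb [[0,0,0], [0,0,1], [0,1,2]]

theorem cert3 : NCert 3 1 x3 y3 p3 d3 k3 c3 s3 t3 := by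
  refine ⟨?_, ?_, ?_, ?_, ?_, ?_, ?_, ?_, ?_, ?_⟩ <;> decide +kernel

def x4 : ℕ → ℕ → ℕ := tb [[8,8,0,8], [1,2,7,6], [5,0,9,3], [4,6,8,2]]
def y4 : ℕ → ℕ → ℕ := tb [[2,10,2,0], [0,11,9,9], [6,0,7,1], [1,2,7,10]]
def p4 : ℕ → ℕ → ℕ := tb [[5,10,0,0], [4,0,0,0], [0,0,7,7], [0,0,10,7]]
def d4 (i j : ℕ) : Bool := (tb [[0,1,0,0], [0,0,0,0], [0,0,1,0], [0,0,0,1]] i j) == 1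
def k4 : ℕ → ℕ → ℕ := tb [[1,1,0,0], [2,0,0,0], [0,0,3,0], [0,0,3,1]]
def c4 : ℕ → ℕ → ℕ := tb [[3,1,0,0], [0,0,0,0], [0,0,1,3], [0,0,2,1]]
def s4 : ℕ → ℕ → ℕ := tb [[3,0,0,0], [0,0,0,0], [0,0,1,2], [0,0,2,1]]
def t4 : ℕ → ℕ → ℕ := tb [[0,0,0,0], [0,0,0,0], [0,0,2,2], [0,0,2,3]]

theorem cert4 : NCert 4 0 x4 y4 p4 d4 k4 c4 s4 t4 := by
  refine ⟨?_, ?_, ?_, ?_, ?_, ?_, ?_, ?_, ?_, ?_⟩ <;> decide +kernel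

def x5 : ℕ → ℕ → ℕ := tb [[1,3,0,1,3], [3,3,0,1,0], [0,3,0,1,0], [1,3,1,3,0], [1,1,1,2,1]]
def y5 : ℕ → ℕ → ℕ := tb [[2,1,2,3,3], [3,3,0,2,1], [0,0,2,1,1], [3,1,3,0,1], [0,0,0,0,3]]
def p5 : ℕ → ℕ → ℕ := tb [[2,0,0,0,0], [0,0,6,0,0], [0,9,7,0,0], [0,0,0,8,8], [0,0,0,10,8]]
def d5 (i j : ℕ) : Bool :=
  (tb [[1,0,0,0,0], [0,0,1,0,0], [0,1,1,0,0], [0,0,0,1,0], [0,0,0,0,1]] i j) == 1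
def k5 : ℕ → ℕ → ℕ := tb [[1,0,0,0,0], [0,0,0,0,0], [0,1,3,0,0], [0,0,0,1,0], [0,0,0,4,0]]
def c5 : ℕ → ℕ → ℕ := tb [[2,0,0,0,0], [0,0,2,0,0], [0,1,4,0,0], [0,0,0,1,4], [0,0,0,3,1]]
def s5 : ℕ → ℕ → ℕ := tb [[2,0,0,0,0], [0,0,1,0,0], [0,1,4,0,0], [0,0,0,1,3], [0,0,0,3,1]]
def t5 : ℕ → ℕ → ℕ := tb [[0,0,0,0,0], [0,0,1,0,0], [0,1,2,0,0], [0,0,0,3,3], [0,0,0,3,4]]

theorem cert5 : NCert 5 1 x5 y5 p5 d5 k5 c5 s5 t5 := by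
  refine ⟨?_, ?_, ?_, ?_, ?_, ?_, ?_, ?_, ?_, ?_⟩ <;> decide +kernel

end Pool.Agent.K4H49.FR
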