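import Pool.Agent.K4H49.FR.Wt

/-!
# Certificates
-/

namespace Pool.Agent.K4H49.FR

open MvPolynomial

section

/-- the variables: `inl (i, j)` is `x i j`, `inr (i, j)` is `y i j` -/
abbrev Vr (ι : Type*) := (ι × ι) ⊕ (ι × ι)

/-- the entry of the commutator in the position `f` -/
noncomputable def cc {ι : Type*} [Fintype ι] (K : Type*) [Field K] (f : ι × ι) :
    MvPolynomial (Vr ι) K :=
  ∑ k, (X (Sum.inl (f.1, k)) * X (Sum.inr (k, f.2)) - X (Sum.inl (k, f.2)) * X (Sum.inr (f.1, k)))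

/-- the `x` variable of the top monomial -/
def lx {ι : Type*} (kd : ι × ι → Bool) (kk : ι × ι → ι) (f : ι × ι) : ι × ι :=
  if kd f = true then (f.1, kk f) else (kk f, f.2)

/-- the `y` variable of the top monomial -/
def ly {ι : Type*} (kd : ι × ι → Bool) (kk : ι × ι → ι) (f : ι × ι) : ι × ι :=
  if kd f = true then (kk f, f.2) else (f.1, kk f)

/-- the weight of the top monomial -/
def dg {ι : Type*} (wx wy : ι → ι → ℕ) (kd : ι × ι → Bool) (kk : ι × ι → ι) (f : ι × ι) : ℕ :=
  if kd f = true then wx f.1 (kk f) + wy (kk f) f.2 else wx (kk f) f.2 + wy f.1 (kk f)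

/-- certificates -/
structure Cert {ι : Type*} (rows : Set (ι × ι)) (wx wy : ι → ι → ℕ)
    (p : ι × ι → ℕ) (kd : ι × ι → Bool) (kk : ι × ι → ι) (pv tp : ι × ι → ι × ι) : Prop where
  L0 : ∀ f ∈ rows, ¬ (f.1 = f.2 ∧ kk f = f.1)
  L1 : ∀ f ∈ rows, ∀ k, (kd f = true ∧ k = kk f) ∨ (f.1 = f.2 ∧ k = f.1) ∨
    wx f.1 k + wy k f.2 < dg wx wy kd kk f
  L2 : ∀ f ∈ rows, ∀ k, (kd f = false ∧ k = kk f) ∨ (f.1 = f.2 ∧ k = f.1) ∨
    wx k f.2 + wy f.1 k < dg wx wy kd kk f
  Ca : ∀ f ∈ rows, ∀ g ∈ rows, lx kd kk f = lx kd kk g → f = g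
  Cb : ∀ f ∈ rows, ∀ g ∈ rows, ly kd kk f = ly kd kk g → f = g
  P1 : ∀ f ∈ rows, ∀ g ∈ rows, pv f = pv g → f = g
  P2 : ∀ f ∈ rows, (pv f).1 = f.1 ∧
    (((pv f).2 ≠ f.2 ∧ tp f = ((pv f).2, f.2)) ∨
      ((pv f).2 = f.2 ∧ ((tp f = (f.1, f.1) ∧ wx f.2 f.2 < wx f.1 f.1) ∨
        (tp f = (f.2, f.2) ∧ wx f.1 f.1 < wx f.2 f.2))))
  P3 : ∀ f ∈ rows, ∀ g ∈ rows, tp f ≠ lx kd kk g
  Q : ∀ f ∈ rows, ∀ g ∈ rows, f ≠ g →
    ((pv g).2 = f.2 → wx f.1 (pv g).1 + p g < p f + wx (tp g).1 (tp g).2) ∧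
    ((pv g).1 = f.1 → wx (pv g).2 f.2 + p g < p f + wx (tp g).1 (tp g).2)

/-- the polynomial is a nonzero multiple of a monomial -/
def IsMon {σ K : Type*} [Field K] (g : MvPolynomial σ K) (μ : σ →₀ ℕ) : Prop :=
  ∃ u : K, u ≠ 0 ∧ g = monomial μ u

lemma IsMon.mul {σ K : Type*} [Field K] {g h : MvPolynomial σ K} {μ ν : σ →₀ ℕ}
    (hg : IsMon g μ) (hh : IsMon h ν) : IsMon (g * h) (μ + ν) := by
  obtain ⟨u, hu, rfl⟩ := hg
  obtain ⟨v, hv, rfl⟩ := hh
  exact ⟨u * v, mul_ne_zero hu hv, monomial_mul⟩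

lemma IsMon.neg {σ K : Type*} [Field K] {g : MvPolynomial σ K} {μ : σ →₀ ℕ}
    (hg : IsMon g μ) : IsMon (-g) μ := by
  obtain ⟨u, hu, rfl⟩ := hg
  exact ⟨-u, neg_ne_zero.2 hu, by rw [map_neg]⟩

lemma IsMon.one {σ K : Type*} [Field K] : IsMon (1 : MvPolynomial σ K) 0 := ⟨1, one_ne_zero, rfl⟩

lemma IsMon.pow {σ K : Type*} [Field K] {g : MvPolynomial σ K} {μ : σ →₀ ℕ}
    (hg : IsMon g μ) (n : ℕ) : IsMon (g ^ n) (n • μ) := by
  obtain ⟨u, hu, rfl⟩ := hg
  exact ⟨u ^ n, pow_ne_zero _ hu, by rw [monomial_pow]⟩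

lemma IsMon.prod {σ K α : Type*} [Field K] (s : Finset α) {g : α → MvPolynomial σ K}
    {μ : α → σ →₀ ℕ} (h : ∀ i, IsMon (g i) (μ i)) : IsMon (∏ i ∈ s, g i) (∑ i ∈ s, μ i) := by
  classical
  induction s using Finset.induction_on with
  | empty => simpa using IsMon.one
  | insert a s ha ih =>
    rw [Finset.prod_insert ha, Finset.sum_insert ha]
    exact (h a).mul ih

lemma IsMon.X {σ K : Type*} [Field K] (v : σ) :
    IsMon (MvPolynomial.X v : MvPolynomial σ K) (Finsupp.single v 1) := ⟨1, one_ne_zero, rfl⟩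

lemma IsMon.coeff_ne {σ K : Type*} [Field K] {g : MvPolynomial σ K} {μ : σ →₀ ℕ}
    (hg : IsMon g μ) : coeff μ g ≠ 0 := by
  classical
  obtain ⟨u, hu, rfl⟩ := hg
  rw [coeff_monomial, if_pos rfl]; exact hu

variable {ι : Type*} [Fintype ι] [DecidableEq ι]
  {rows : Set (ι × ι)} {wx wy : ι → ι → ℕ} {p : ι × ι → ℕ} {kd : ι × ι → Bool}
  {kk : ι × ι → ι} {pv tp : ι × ι → ι × ι}

/-- the weights of all variables -/
def ww (wx wy : ι → ι → ℕ) : Vr ι → ℕ := Sum.elim (fun a => wx a.1 a.2) (fun a => wy a.1 a.2)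

omit [Fintype ι] [DecidableEq ι] in
lemma topX (K : Type*) [Field K] (wx wy : ι → ι → ℕ) (a : ι × ι) :
    HasTop (K := K) (ww wx wy) (X (Sum.inl a)) (wx a.1 a.2) (X (Sum.inl a)) := HasTop.X _ _

/-- the top part of a row -/
noncomputable def topf (K : Type*) [Field K] (kd : ι × ι → Bool) (kk : ι × ι → ι) (f : ι × ι) :
    MvPolynomial (Vr ι) K :=
  if kd f = true then X (Sum.inl (f.1, kk f)) * X (Sum.inr (kk f, f.2))
  else - (X (Sum.inl (kk f, f.2)) * X (Sum.inr (f.1, kk f)))

omit [Fintype ι] [DecidableEq ι] in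
lemma topf_isMon (K : Type*) [Field K] (kd : ι × ι → Bool) (kk : ι × ι → ι) (f : ι × ι) :
    IsMon (topf K kd kk f)
      (Finsupp.single (Sum.inl (lx kd kk f)) 1 + Finsupp.single (Sum.inr (ly kd kk f)) 1) := by
  unfold topf lx ly
  split_ifs
  · exact (IsMon.X _).mul (IsMon.X _)
  · exact ((IsMon.X _).mul (IsMon.X _)).neg

lemma Cert.top (K : Type*) [Field K] (C : Cert rows wx wy p kd kk pv tp) {f : ι × ι}
    (hf : f ∈ rows) : HasTop (ww wx wy) (cc K f) (dg wx wy kd kk f) (topf K kd kk f) := by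
  have h1 : ∀ k ∈ Finset.univ, HasTop (ww wx wy)
      (X (Sum.inl (f.1, k)) * X (Sum.inr (k, f.2)) - X (Sum.inl (k, f.2)) * X (Sum.inr (f.1, k)) :
        MvPolynomial (Vr ι) K) (dg wx wy kd kk f)
      (if k = kk f then topf K kd kk f else 0) := by
    intro k _
    by_cases hd : f.1 = f.2 ∧ k = f.1
    · have h2 : k ≠ kk f := by
        rintro rfl; exact C.L0 f hf hd
      rw [if_neg h2]
      obtain ⟨h3, h4⟩ := hd
      rw [← h3, ← h4, sub_self]
      exact HasTop.zero _ _
    · have e1 : HasTop (ww wx wy)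
          (X (Sum.inl (f.1, k)) * X (Sum.inr (k, f.2)) : MvPolynomial (Vr ι) K)
          (dg wx wy kd kk f)
          (if kd f = true ∧ k = kk f then X (Sum.inl (f.1, k)) * X (Sum.inr (k, f.2)) else 0) := by
        by_cases h : kd f = true ∧ k = kk f
        · rw [if_pos h]
          have : dg wx wy kd kk f = ww wx wy (Sum.inl (f.1, k)) + ww wx wy (Sum.inr (k, f.2)) := by
            rw [dg, if_pos h.1, h.2]; rfl
          rw [this]
          exact HasTop.XX _ _ _
        · rw [if_neg h]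
          refine (HasTop.XX _ _ _).lt ?_
          exact ((C.L1 f hf k).resolve_left h).resolve_left hd
      have e2 : HasTop (ww wx wy)
          (X (Sum.inl (k, f.2)) * X (Sum.inr (f.1, k)) : MvPolynomial (Vr ι) K)
          (dg wx wy kd kk f)
          (if kd f = false ∧ k = kk f then X (Sum.inl (k, f.2)) * X (Sum.inr (f.1, k)) else 0) := by
        by_cases h : kd f = false ∧ k = kk f
        · rw [if_pos h]
          have : dg wx wy kd kk f = ww wx wy (Sum.inl (k, f.2)) + ww wx wy (Sum.inr (f.1, k)) := by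
            rw [dg, if_neg (by rw [h.1]; simp), h.2]; rfl
          rw [this]
          exact HasTop.XX _ _ _
        · rw [if_neg h]
          refine (HasTop.XX _ _ _).lt ?_
          exact ((C.L2 f hf k).resolve_left h).resolve_left hd
      have e3 := e1.sub e2
      have e4 : (if k = kk f then topf K kd kk f else 0) =
          (if kd f = true ∧ k = kk f then
            (X (Sum.inl (f.1, k)) * X (Sum.inr (k, f.2)) : MvPolynomial (Vr ι) K) else 0) -
          (if kd f = false ∧ k = kk f then X (Sum.inl (k, f.2)) * X (Sum.inr (f.1, k)) else 0) := by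
        unfold topf
        by_cases hk : k = kk f
        · subst hk
          cases hkd : kd f <;> simp
        · simp [hk]
      rw [e4]
      exact e3
  have h2 := HasTop.sum Finset.univ h1
  rw [Finset.sum_ite_eq' Finset.univ (kk f) (fun _ => topf K kd kk f)] at h2
  simpa [cc] using h2

/-- the pivot matrix over the whole polynomial ring -/
noncomputable def NN (K : Type*) [Field K] (pv : ι × ι → ι × ι) (rows : Set (ι × ι)) :
    Matrix rows rows (MvPolynomial (Vr ι) K) := fun f P =>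
  (if (pv P).2 = f.1.2 then X (Sum.inl (f.1.1, (pv P).1)) else 0) -
    (if (pv P).1 = f.1.1 then X (Sum.inl ((pv P).2, f.1.2)) else 0)

omit [Fintype ι] in
lemma Cert.topN (K : Type*) [Field K] (C : Cert rows wx wy p kd kk pv tp) (g : rows) :
    ∃ t, IsMon t (Finsupp.single (Sum.inl (tp g)) 1) ∧
      HasTop (ww wx wy) (NN K pv rows g g) (wx (tp g).1 (tp g).2) t := by
  obtain ⟨h1, h2⟩ := C.P2 g g.2
  unfold NN
  rcases h2 with ⟨h2, h3⟩ | ⟨h2, ⟨h3, h4⟩ | ⟨h3, h4⟩⟩
  · rw [if_neg h2, if_pos h1, zero_sub, h3]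
    exact ⟨_, (IsMon.X _).neg, (HasTop.X _ _).neg⟩
  · rw [if_pos h2, if_pos h1, h1, h2, h3]
    refine ⟨_, IsMon.X _, ?_⟩
    have := (topX K wx wy (g.1.1, g.1.1)).sub ((topX K wx wy (g.1.2, g.1.2)).lt h4)
    simpa using this
  · rw [if_pos h2, if_pos h1, h1, h2, h3]
    refine ⟨_, (IsMon.X _).neg, ?_⟩
    have := ((topX K wx wy (g.1.1, g.1.1)).lt h4).sub (topX K wx wy (g.1.2, g.1.2))
    simpa using this

omit [Fintype ι] in
lemma Cert.offN (K : Type*) [Field K] (C : Cert rows wx wy p kd kk pv tp) (f g : rows)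
    (hfg : f ≠ g) : NN K pv rows f g = 0 ∨
      (Ph (ww wx wy) (NN K pv rows f g)).natDegree + p g < p f + wx (tp g).1 (tp g).2 := by
  obtain ⟨h1, h2⟩ := C.Q f f.2 g g.2 (fun h => hfg (Subtype.ext h))
  unfold NN
  by_cases ha : (pv g).2 = f.1.2
  · have h3 := h1 ha
    right
    by_cases hb : (pv g).1 = f.1.1
    · have h4 := h2 hb
      rw [if_pos ha, if_pos hb, map_sub]
      have h5 := Polynomial.natDegree_sub_le (Ph (K := K) (ww wx wy) (X (Sum.inl (f.1.1, (pv g).1))))
        (Ph (K := K) (ww wx wy) (X (Sum.inl ((pv g).2, f.1.2))))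
      have h6 := (topX K wx wy (f.1.1, (pv g).1)).1
      have h7 := (topX K wx wy ((pv g).2, f.1.2)).1
      have h8 := h5.trans (max_le_max h6 h7)
      simp only at h8
      rcases le_total (wx f.1.1 (pv g).1) (wx (pv g).2 f.1.2) with h9 | h9
      · rw [max_eq_right h9] at h8; omega
      · rw [max_eq_left h9] at h8; omega
    · rw [if_pos ha, if_neg hb, sub_zero]
      have h6 := (topX K wx wy (f.1.1, (pv g).1)).1
      simp only at h6
      omega
  · by_cases hb : (pv g).1 = f.1.1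
    · right
      have h4 := h2 hb
      rw [if_neg ha, if_pos hb, zero_sub, map_neg, Polynomial.natDegree_neg]
      have h6 := (topX K wx wy ((pv g).2, f.1.2)).1
      simp only at h6
      omega
    · left
      rw [if_neg ha, if_neg hb, sub_zero]

omit [DecidableEq ι] in
lemma cc_hom (K : Type*) [Field K] (f : ι × ι) : (cc K f).IsHomogeneous 2 := by
  unfold cc
  refine IsHomogeneous.sum _ _ _ fun k _ => ?_
  exact ((isHomogeneous_X K _).mul (isHomogeneous_X K _)).sub
    ((isHomogeneous_X K _).mul (isHomogeneous_X K _))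

omit [Fintype ι] in
lemma NN_hom (K : Type*) [Field K] (pv : ι × ι → ι × ι) (rows : Set (ι × ι)) (f g : rows) :
    (NN K pv rows f g).IsHomogeneous 1 := by
  unfold NN
  refine IsHomogeneous.sub ?_ ?_
  · split_ifs
    · exact isHomogeneous_X K _
    · exact isHomogeneous_zero _ _ _
  · split_ifs
    · exact isHomogeneous_X K _
    · exact isHomogeneous_zero _ _ _

omit [Fintype ι] in
lemma det_hom (K : Type*) [Field K] (pv : ι × ι → ι × ι) (rows : Set (ι × ι)) [Fintype rows]
    [DecidableEq rows] :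
    (NN K pv rows).det.IsHomogeneous (Fintype.card rows) := by
  rw [Matrix.det_apply]
  refine IsHomogeneous.sum _ _ _ fun s _ => ?_
  have h1 : (∏ g, NN K pv rows (s g) g).IsHomogeneous (∑ _g : rows, 1) :=
    IsHomogeneous.prod _ _ _ fun g _ => NN_hom K pv rows _ _
  rw [Finset.sum_const, smul_eq_mul, mul_one, Finset.card_univ] at h1
  rcases Int.units_eq_one_or (Equiv.Perm.sign s) with h7 | h7
  · rw [h7, one_smul]; exact h1
  · rw [h7, Units.neg_smul, one_smul]; exact h1.neg

/-- the splittings -/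
lemma Cert.split (K : Type*) [Field K] {p0 : ℕ} (hp : p0.Prime) [CharP K p0] [Fintype rows]
    [DecidableEq rows]
    (C : Cert rows wx wy p kd kk pv tp) (m E0 : ℕ) : ∃ e : ℕ, E0 ≤ e ∧
      ∃ ψ : MvPolynomial (Vr ι) K →+ MvPolynomial (Vr ι) K, QLin (p0 ^ e) ψ ∧
        ψ ((∏ j : rows, cc K j.1) ^ (p0 ^ e - 1) * (NN K pv rows).det ^ m) = 1 := by
  choose t ht1 ht2 using C.topN K
  set e := max E0 (m * Fintype.card rows + 1) with he
  have hq : m * Fintype.card rows + 1 < p0 ^ e :=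
    lt_of_le_of_lt (le_max_right _ _) (Nat.lt_pow_self hp.one_lt)
  have hT := ((HasTop.prod Finset.univ (f := fun j : rows => cc K j.1)
    (fun j _ => C.top K j.2)).pow (p0 ^ e - 1)).mul
    ((HasTop.det (NN K pv rows) (fun g => p g) (fun g => wx (tp g).1 (tp g).2) t ht2
      (fun f g h => C.offN K f g h)).pow m)
  have hM := ((IsMon.prod Finset.univ (g := fun j : rows => topf K kd kk j.1)
    (fun j => topf_isMon K kd kk j.1)).pow (p0 ^ e - 1)).mul
    ((IsMon.prod Finset.univ (g := t) ht1).pow m)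
  have hne := hT.coeff_ne hM.coeff_ne
  have hH : ((∏ j : rows, cc K j.1) ^ (p0 ^ e - 1) * (NN K pv rows).det ^ m).IsHomogeneous
      ((∑ _j : rows, 2) * (p0 ^ e - 1) + Fintype.card rows * m) :=
    ((IsHomogeneous.prod _ _ _ fun j _ => cc_hom K _).pow _).mul ((det_hom K pv rows).pow _)
  refine ⟨e, le_max_left _ _, hS_poly hp hH hne ?_⟩
  intro v
  simp only [Finsupp.add_apply, Finsupp.smul_apply, smul_eq_mul, Finset.sum_add_distrib,
    Finsupp.finsetSum_apply]
  have hcard : ∀ (s : rows → Prop) [DecidablePred s],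
      (∑ g : rows, if s g then 1 else 0) ≤ Fintype.card rows := by
    intro s _
    rw [← Finset.card_filter, ← Finset.card_univ]
    exact Finset.card_le_card (Finset.filter_subset _ _)
  have hone : ∀ (s : rows → Prop) [DecidablePred s], (∀ f g, s f → s g → f = g) →
      (∑ g : rows, if s g then 1 else 0) ≤ 1 := by
    intro s _ hs
    rw [← Finset.card_filter, Finset.card_le_one]
    intro a ha b hb
    exact hs a b (Finset.mem_filter.1 ha).2 (Finset.mem_filter.1 hb).2
  rcases v with a | b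
  · simp only [Finsupp.single_apply, Sum.inl.injEq, reduceCtorEq, if_false, Finset.sum_const_zero,
      add_zero]
    have h1 := hone (fun g : rows => lx kd kk g.1 = a)
      (fun f g hf hg => Subtype.ext (C.Ca f f.2 g g.2 (hf.trans hg.symm)))
    by_cases h2 : ∃ g : rows, lx kd kk g.1 = a
    · obtain ⟨g0, hg0⟩ := h2
      have h3 : (∑ g : rows, if tp g = a then 1 else 0) = 0 := by
        refine Finset.sum_eq_zero fun g _ => if_neg ?_
        intro h; exact C.P3 g g.2 g0 g0.2 (h.trans hg0.symm)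
      rw [h3, mul_zero, add_zero]
      calc (p0 ^ e - 1) * (∑ g : rows, if lx kd kk g.1 = a then 1 else 0) ≤ (p0 ^ e - 1) * 1 :=
            Nat.mul_le_mul_left _ h1
        _ < p0 ^ e := by omega
    · have h3 : (∑ g : rows, if lx kd kk g.1 = a then 1 else 0) = 0 := by
        push Not at h2
        exact Finset.sum_eq_zero fun g _ => if_neg (h2 g)
      rw [h3, mul_zero, zero_add]
      calc m * (∑ g : rows, if tp g = a then 1 else 0) ≤ m * Fintype.card rows :=
            Nat.mul_le_mul_left _ (hcard _)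
        _ < p0 ^ e := by omega
  · simp only [Finsupp.single_apply, Sum.inr.injEq, reduceCtorEq, if_false, Finset.sum_const_zero,
      zero_add, mul_zero, add_zero]
    have h1 := hone (fun g : rows => ly kd kk g.1 = b)
      (fun f g hf hg => Subtype.ext (C.Cb f f.2 g g.2 (hf.trans hg.symm)))
    calc (p0 ^ e - 1) * (∑ g : rows, if ly kd kk g.1 = b then 1 else 0) ≤ (p0 ^ e - 1) * 1 :=
          Nat.mul_le_mul_left _ h1
      _ < p0 ^ e := by omega

lemma Cert.aux (K : Type*) [Field K] {p0 : ℕ} (hp : p0.Prime) [CharP K p0] [Fintype rows]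
    [DecidableEq rows] (Ct : Cert rows wx wy p kd kk pv tp) {B : Type*} [CommRing B] [IsDomain B]
    [CharP B p0] (hB : ∀ b : B, b ≠ 0 → ∃ (e : ℕ) (φ : B →+ B), QLin (p0 ^ e) φ ∧ φ b = 1)
    (r : Vr ι → B) (E : MvPolynomial (Vr ι) K ≃+* MvPolynomial rows B)
    (hE : ∀ v, E (X v) = ∑ P : rows, (if Sum.inr (pv P) = v then X P else 0) + C (r v)) :
    IsDomain (MvPolynomial (Vr ι) K ⧸ Ideal.span (cc K '' rows)) ∧
      Split (MvPolynomial (Vr ι) K ⧸ Ideal.span (cc K '' rows)) p0 := by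
  have hEx : ∀ a : ι × ι, E (X (Sum.inl a)) = C (r (Sum.inl a)) := fun a => by
    rw [hE]; simp
  have hEy : ∀ a : ι × ι, E (X (Sum.inr a)) =
      ∑ P : rows, (if pv P = a then X P else 0) + C (r (Sum.inr a)) := fun a => by
    rw [hE]; simp only [Sum.inr.injEq]
  obtain ⟨M, hM⟩ : ∃ M : Matrix rows rows B, ∀ f P, M f P =
    (if (pv P).2 = f.1.2 then r (Sum.inl (f.1.1, (pv P).1)) else 0) -
    (if (pv P).1 = f.1.1 then r (Sum.inl ((pv P).2, f.1.2)) else 0) := ⟨fun f P => _, fun _ _ => rfl⟩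
  obtain ⟨g, hg⟩ : ∃ g : rows → B, ∀ f, g f =
    ∑ k, (r (Sum.inl (f.1.1, k)) * r (Sum.inr (k, f.1.2)) -
    r (Sum.inl (k, f.1.2)) * r (Sum.inr (f.1.1, k))) := ⟨fun f => _, fun _ => rfl⟩
  have hrow : ∀ f : rows, E (cc K f.1) = ff M g f := by
    intro f
    have h1 : E (cc K f.1) = ∑ k, (C (r (Sum.inl (f.1.1, k))) *
        (∑ P : rows, (if pv P = (k, f.1.2) then X P else 0) + C (r (Sum.inr (k, f.1.2)))) -
        C (r (Sum.inl (k, f.1.2))) *
        (∑ P : rows, (if pv P = (f.1.1, k) then X P else 0) + C (r (Sum.inr (f.1.1, k))))) := by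
      rw [cc, map_sum]
      refine Finset.sum_congr rfl fun k _ => ?_
      rw [map_sub, map_mul, map_mul, hEx, hEx, hEy, hEy]
    have h2 : ff M g f = ∑ P : rows, C (M f P) * X P + ∑ k, (C (r (Sum.inl (f.1.1, k))) *
        C (r (Sum.inr (k, f.1.2))) - C (r (Sum.inl (k, f.1.2))) * C (r (Sum.inr (f.1.1, k)))) := by
      rw [ff]
      congr 1
      simp only [hg, map_sum, map_sub, map_mul]
    have h3 : ∀ P : rows, C (M f P) * X P =
        ∑ k, (C (r (Sum.inl (f.1.1, k))) * (if pv P = (k, f.1.2) then X P else 0) -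
          C (r (Sum.inl (k, f.1.2))) * (if pv P = (f.1.1, k) then (X P : MvPolynomial rows B)
            else 0)) := by
      intro P
      rw [Finset.sum_sub_distrib]
      have h4 : ∑ k, C (r (Sum.inl (f.1.1, k))) *
          (if pv P = (k, f.1.2) then (X P : MvPolynomial rows B) else 0) =
          C (if (pv P).2 = f.1.2 then r (Sum.inl (f.1.1, (pv P).1)) else 0) * X P := by
        by_cases h5 : (pv P).2 = f.1.2
        · have h7 : pv P = ((pv P).1, f.1.2) := Prod.ext rfl h5
          rw [if_pos h5, Finset.sum_eq_single (pv P).1]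
          · rw [if_pos h7]
          · intro k _ hk
            rw [if_neg (fun h => hk (by rw [h])), mul_zero]
          · simp
        · rw [if_neg h5, map_zero, zero_mul]
          exact Finset.sum_eq_zero fun k _ => by
            rw [if_neg (fun h => h5 (by rw [h])), mul_zero]
      have h6 : ∑ k, C (r (Sum.inl (k, f.1.2))) *
          (if pv P = (f.1.1, k) then (X P : MvPolynomial rows B) else 0) =
          C (if (pv P).1 = f.1.1 then r (Sum.inl ((pv P).2, f.1.2)) else 0) * X P := by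
        by_cases h5 : (pv P).1 = f.1.1
        · have h7 : pv P = (f.1.1, (pv P).2) := Prod.ext h5 rfl
          rw [if_pos h5, Finset.sum_eq_single (pv P).2]
          · rw [if_pos h7]
          · intro k _ hk
            rw [if_neg (fun h => hk (by rw [h])), mul_zero]
          · simp
        · rw [if_neg h5, map_zero, zero_mul]
          exact Finset.sum_eq_zero fun k _ => by
            rw [if_neg (fun h => h5 (by rw [h])), mul_zero]
      rw [h4, h6, ← sub_mul, ← map_sub, hM]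
    rw [h1, h2]
    simp only [h3]
    rw [Finset.sum_comm, ← Finset.sum_add_distrib]
    refine Finset.sum_congr rfl fun k _ => ?_
    rw [Finset.sum_sub_distrib, ← Finset.mul_sum, ← Finset.mul_sum]
    ring
  have hdet : E (NN K pv rows).det = C M.det := by
    have h1 : E (NN K pv rows).det = ((E : MvPolynomial (Vr ι) K →+* MvPolynomial rows B).mapMatrix
        (NN K pv rows)).det := RingHom.map_det (E : MvPolynomial (Vr ι) K →+* MvPolynomial rows B) _
    have h2 : (C M.det : MvPolynomial rows B) = ((C : B →+* MvPolynomial rows B).mapMatrix M).det :=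
      RingHom.map_det _ _
    rw [h1, h2]
    congr 1
    ext1 f P
    simp only [RingHom.mapMatrix_apply, Matrix.map_apply, NN, hM]
    rw [map_sub, map_sub]
    congr 1
    · split_ifs
      · exact hEx _
      · rw [map_zero, map_zero]
    · split_ifs
      · exact hEx _
      · rw [map_zero, map_zero]
  have hsplit : ∀ m E0 : ℕ, ∃ e : ℕ, E0 ≤ e ∧ ∃ ψ : MvPolynomial rows B →+ MvPolynomial rows B,
      QLin (p0 ^ e) ψ ∧ ψ ((∏ j, ff M g j) ^ (p0 ^ e - 1) * C (M.det ^ m)) = 1 := by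
    intro m n
    obtain ⟨e, he, ψ, hψ, h1⟩ := Ct.split K hp m n
    refine ⟨e, he, _, hψ.equiv E, ?_⟩
    have h2 : (∏ j, ff M g j) ^ (p0 ^ e - 1) * C (M.det ^ m) =
        E ((∏ j : rows, cc K j.1) ^ (p0 ^ e - 1) * (NN K pv rows).det ^ m) := by
      rw [map_mul, map_pow, map_pow, map_prod, map_pow, hdet]
      simp only [hrow]
    rw [h2]
    change E (ψ (E.symm (E _))) = 1
    rw [E.symm_apply_apply, h1, map_one]
  have hc : M.det ≠ 0 := by
    obtain ⟨e, -, ψ, -, h1⟩ := hsplit 1 0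
    intro h0
    rw [h0, pow_one, map_zero, mul_zero, map_zero] at h1
    exact zero_ne_one h1
  obtain ⟨h1, h2⟩ := piv_main hp M g hc hB hsplit
  have hI : II M g = (Ideal.span (cc K '' rows)).map (E : _ →+* MvPolynomial rows B) := by
    rw [Ideal.map_span, II]
    congr 1
    ext x
    constructor
    · rintro ⟨j, rfl⟩
      exact ⟨cc K j.1, ⟨j.1, j.2, rfl⟩, hrow j⟩
    · rintro ⟨_, ⟨f, hf, rfl⟩, rfl⟩
      exact ⟨⟨f, hf⟩, (hrow ⟨f, hf⟩).symm⟩
  have Q := Ideal.quotientEquiv _ _ E hI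
  exact ⟨Q.toMulEquiv.isDomain, h2.of_ringEquiv Q.symm⟩

/-- **Certificates imply that the quotient is a domain which is split along every nonzero element.** -/
theorem Cert.main (K : Type*) [Field K] {p0 : ℕ} (hp : p0.Prime) [CharP K p0]
    (Ct : Cert rows wx wy p kd kk pv tp) :
    IsDomain (MvPolynomial (Vr ι) K ⧸ Ideal.span (cc K '' rows)) ∧
      Split (MvPolynomial (Vr ι) K ⧸ Ideal.span (cc K '' rows)) p0 := by
  classical
  set piv : rows → Vr ι := fun g => Sum.inr (pv g) with hpiv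
  have hinj : Function.Injective piv := fun f g h =>
    Subtype.ext (Ct.P1 f f.2 g g.2 (Sum.inr_injective h))
  set E0 : Vr ι ≃ rows ⊕ {v : Vr ι // ¬ v ∈ Set.range piv} :=
    (Equiv.sumCompl (· ∈ Set.range piv)).symm.trans
      (Equiv.sumCongr (Equiv.ofInjective piv hinj).symm (Equiv.refl _)) with hE0
  have h01 : ∀ P, E0 (piv P) = Sum.inl P := by
    intro P
    rw [hE0, Equiv.trans_apply,
      Equiv.sumCompl_symm_apply_of_pos (p := (· ∈ Set.range piv)) (Set.mem_range_self P)]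
    simp only [Equiv.sumCongr_apply, Sum.map_inl]
    congr 1
    rw [Equiv.symm_apply_eq]
    rfl
  have h02 : ∀ v, (h : ¬ v ∈ Set.range piv) → E0 v = Sum.inr ⟨v, h⟩ := by
    intro v h
    rw [hE0, Equiv.trans_apply, Equiv.sumCompl_symm_apply_of_neg (p := (· ∈ Set.range piv)) h]
    rfl
  refine Ct.aux K hp (B := MvPolynomial {v : Vr ι // ¬ v ∈ Set.range piv} K)
    (fun b hb => hB_poly hp b hb)
    (fun v => if h : ¬ v ∈ Set.range piv then X ⟨v, h⟩ else 0)
    ((renameEquiv K E0).trans (sumAlgEquiv K rows _)).toRingEquiv ?_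
  intro v
  change (sumAlgEquiv K rows _) (rename E0 (X v)) = _
  rw [rename_X]
  by_cases h : v ∈ Set.range piv
  · obtain ⟨P, rfl⟩ := h
    rw [dif_neg (not_not.2 (Set.mem_range_self P)), map_zero, add_zero, h01]
    have : ∀ Q : rows, (if Sum.inr (pv Q) = piv P then (X Q : MvPolynomial rows
        (MvPolynomial {v : Vr ι // ¬ v ∈ Set.range piv} K)) else 0) =
        if Q = P then X Q else 0 := by
      intro Q
      by_cases hQ : Q = P
      · rw [hQ, if_pos rfl, if_pos rfl]
      · rw [if_neg hQ, if_neg (fun h => hQ (hinj h))]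
    simp only [this]
    rw [Finset.sum_ite_eq' Finset.univ P, if_pos (Finset.mem_univ _)]
    exact sumAlgEquiv_X_inl ..
  · have : ∀ Q : rows, (if Sum.inr (pv Q) = v then (X Q : MvPolynomial rows
        (MvPolynomial {v : Vr ι // ¬ v ∈ Set.range piv} K)) else 0) = 0 := fun Q =>
      if_neg (fun h' => h ⟨Q, h'⟩)
    simp only [this, Finset.sum_const_zero, zero_add]
    rw [dif_pos h, h02 v h]
    exact sumAlgEquiv_X_inr ..

end

end Pool.Agent.K4H49.FR
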