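import Pool.Agent.K4H49.FR.Piv

/-!
# Coordinate maps on polynomial rings over a field of characteristic `p`
-/

namespace Pool.Agent.K4H49.FR

open MvPolynomial

/-- a copy of `K`, for the action of `K` through the Frobenius map -/
def FrMod (K : Type*) : Type _ := K

instance (K : Type*) [Field K] : AddCommGroup (FrMod K) := inferInstanceAs (AddCommGroup K)

/-- the action through the Frobenius map -/
@[reducible] noncomputable def frModule (K : Type*) [Field K] (F : K →+* K) : Module K (FrMod K) :=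
  (Module.compHom K F : Module K K)

/-- the identity -/
def toFr {K : Type*} (x : K) : FrMod K := x

lemma exists_lam (K : Type*) [Field K] {p : ℕ} (hp : p.Prime) [CharP K p] (e : ℕ) (s0 : K)
    (h : s0 ≠ 0) : ∃ lam : K →+ K, QLin (p ^ e) lam ∧ lam s0 = 1 := by
  have := Fact.mk hp
  let _ := frModule K (iterateFrobenius K p e)
  have hsm : ∀ (a b : K), a • toFr b = toFr (a ^ p ^ e * b) := fun a b => rfl
  have hadd : ∀ (a b : K), toFr (a + b) = toFr a + toFr b := fun a b => rfl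
  have h0 : toFr (0 : K) = 0 := rfl
  have h1 : ∃ f : FrMod K →ₗ[K] K, f (toFr s0) ≠ 0 := by
    by_contra h2
    push Not at h2
    have h3 : toFr s0 = 0 := (Module.forall_dual_apply_eq_zero_iff K (toFr s0)).1 h2
    exact h h3
  obtain ⟨f, hf⟩ := h1
  refine ⟨⟨⟨fun x => (f (toFr s0))⁻¹ * f (toFr x), ?_⟩, fun x y => ?_⟩, fun a b => ?_, ?_⟩
  · rw [h0, f.map_zero, mul_zero]
  · change (f (toFr s0))⁻¹ * f (toFr (x + y)) = _
    rw [hadd, f.map_add, mul_add]
  · change (f (toFr s0))⁻¹ * f (toFr (a ^ p ^ e * b)) = _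
    rw [← hsm, f.map_smul, smul_eq_mul, mul_left_comm]
    rfl
  · exact inv_mul_cancel₀ hf

section

variable {σ : Type*} {K : Type*} [Field K]

open Classical in
/-- the coordinate map at `μ` -/
noncomputable def crd (μ : σ →₀ ℕ) (q : ℕ) (lam : K →+ K) : MvPolynomial σ K →+ MvPolynomial σ K :=
  lin fun n => if ∀ v, n v % q = μ v then (monomial (dv q n)).toAddMonoidHom.comp lam else 0

lemma crd_monomial_pos {μ : σ →₀ ℕ} {q : ℕ} {lam : K →+ K} {n : σ →₀ ℕ}
    (h : ∀ v, n v % q = μ v) (x : K) :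
    crd μ q lam (monomial n x) = monomial (dv q n) (lam x) := by
  rw [crd, lin_monomial, if_pos h]; rfl

lemma crd_monomial_neg {μ : σ →₀ ℕ} {q : ℕ} {lam : K →+ K} {n : σ →₀ ℕ}
    (h : ¬ ∀ v, n v % q = μ v) (x : K) : crd μ q lam (monomial n x) = 0 := by
  rw [crd, lin_monomial, if_neg h]; rfl

lemma crd_qlin {p : ℕ} (hp : p.Prime) [CharP K p] (μ : σ →₀ ℕ) (e : ℕ) {lam : K →+ K}
    (h : QLin (p ^ e) lam) : QLin (p ^ e) (crd μ (p ^ e) lam) := by
  refine qlin_of_monomial hp e _ fun m n x y => ?_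
  have hq : 0 < p ^ e := Nat.pow_pos hp.pos
  have hm : ∀ v, (p ^ e • m + n : σ →₀ ℕ) v % p ^ e = n v % p ^ e := by
    intro v
    simp only [Finsupp.add_apply, Finsupp.smul_apply, smul_eq_mul]
    rw [Nat.add_comm, Nat.add_mul_mod_self_left]
  by_cases hn : ∀ v, n v % p ^ e = μ v
  · rw [crd_monomial_pos hn, crd_monomial_pos (fun v => by rw [hm, hn]), dv_add hq, h,
      monomial_mul]
  · rw [crd_monomial_neg hn, crd_monomial_neg (fun h1 => hn fun v => by rw [← hm, h1]), mul_zero]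

lemma crd_eq {μ : σ →₀ ℕ} {q : ℕ} {lam : K →+ K} {G : MvPolynomial σ K} (hμ : ∀ v, μ v < q)
    (h : ∀ n ∈ G.support, (∀ v, n v % q = μ v) → n = μ) : crd μ q lam G = C (lam (coeff μ G)) := by
  classical
  have hd : dv q μ = 0 := by
    ext v; rw [dv_apply]; exact Nat.div_eq_of_lt (hμ v)
  have hmu : ∀ v, μ v % q = μ v := fun v => Nat.mod_eq_of_lt (hμ v)
  conv_lhs => rw [G.as_sum, map_sum]
  rw [Finset.sum_eq_single μ]
  · rw [crd_monomial_pos hmu, hd]; rfl
  · intro n hn hne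
    exact crd_monomial_neg (fun h1 => hne (h n hn h1)) _
  · intro hn
    rw [notMem_support_iff] at hn
    rw [hn, map_zero, map_zero]

/-- polynomial rings are split along every nonzero element -/
lemma hB_poly {p : ℕ} (hp : p.Prime) [CharP K p] (b : MvPolynomial σ K) (hb : b ≠ 0) :
    ∃ (e : ℕ) (φ : MvPolynomial σ K →+ MvPolynomial σ K), QLin (p ^ e) φ ∧ φ b = 1 := by
  obtain ⟨μ, hμ⟩ := MvPolynomial.exists_coeff_ne_zero hb
  have hlt : ∀ n ∈ b.support, ∀ v, n v < p ^ (b.totalDegree + 1) := by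
    intro n hn v
    have h1 : n v ≤ b.degreeOf v := monomial_le_degreeOf v hn
    have h2 := degreeOf_le_totalDegree b v
    have h3 : b.totalDegree + 1 < p ^ (b.totalDegree + 1) := Nat.lt_pow_self hp.one_lt
    omega
  obtain ⟨lam, hl, hl1⟩ := exists_lam K hp (b.totalDegree + 1) _ hμ
  refine ⟨b.totalDegree + 1, crd μ _ lam, crd_qlin hp _ _ hl, ?_⟩
  rw [crd_eq (hlt μ (mem_support_iff.2 hμ)), hl1, map_one]
  intro n hn h
  ext v
  rw [← h v, Nat.mod_eq_of_lt (hlt n hn v)]

/-- a homogeneous polynomial with a monomial with small exponents -/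
lemma hS_poly {p : ℕ} (hp : p.Prime) [CharP K p] {G : MvPolynomial σ K} {D : ℕ}
    (hG : G.IsHomogeneous D) {μ : σ →₀ ℕ} (hμ : coeff μ G ≠ 0) {e : ℕ} (he : ∀ v, μ v < p ^ e) :
    ∃ ψ : MvPolynomial σ K →+ MvPolynomial σ K, QLin (p ^ e) ψ ∧ ψ G = 1 := by
  obtain ⟨lam, hl, hl1⟩ := exists_lam K hp e _ hμ
  refine ⟨crd μ _ lam, crd_qlin hp _ _ hl, ?_⟩
  rw [crd_eq he, hl1, map_one]
  intro n hn h
  rw [mem_support_iff] at hn
  have h1 : n.degree = D := by
    have := hG hn; rw [Finsupp.degree_eq_weight_one]; exact this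
  have h2 : μ.degree = D := by
    have := hG hμ; rw [Finsupp.degree_eq_weight_one]; exact this
  have h3 : μ ≤ n := fun v => by rw [← h v]; exact Nat.mod_le _ _
  obtain ⟨d, rfl⟩ := exists_add_of_le h3
  rw [map_add, h2] at h1
  have h4 : d.degree = 0 := by omega
  rw [(Finsupp.degree_eq_zero_iff d).1 h4, add_zero]

end

lemma QLin.equiv {A B : Type*} [CommRing A] [CommRing B] (E : A ≃+* B) {q : ℕ} {ψ : A →+ A}
    (h : QLin q ψ) : QLin q ((E.toAddEquiv.toAddMonoidHom.comp ψ).comp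
      E.symm.toAddEquiv.toAddMonoidHom) := by
  intro a b
  have := h (E.symm a) (E.symm b)
  simp [this]

end Pool.Agent.K4H49.FR
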