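import Pool.Agent.K4H49.FR.Cert

/-!
# Certificates for all `n`
-/

namespace Pool.Agent.K4H49.FR

/-- the involution: `0` is fixed if `s = 1`; the pairs are `s + 2 l`, `s + 2 l + 1` -/
def tau (s i : ℕ) : ℕ := if i < s then i else if (i - s) % 2 = 0 then i + 1 else i - 1

/-- the rows -/
abbrev Rw (s i j : ℕ) : Prop := (j = tau s i ∧ i ≠ j) ∨ (i = j ∧ i ≠ 1)

/-- weight of the top monomial -/
def dgN (wx wy : ℕ → ℕ → ℕ) (kd : ℕ → ℕ → Bool) (kk : ℕ → ℕ → ℕ) (i j : ℕ) : ℕ :=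
  if kd i j = true then wx i (kk i j) + wy (kk i j) j else wx (kk i j) j + wy i (kk i j)

/-- certificates in terms of natural numbers; the pivot of `(i, j)` is `y i (pc i j)`, the top variable of
the pivot entry is `x (t1 i j) (t2 i j)` -/
structure NCert (n s : ℕ) (wx wy p : ℕ → ℕ → ℕ) (kd : ℕ → ℕ → Bool)
    (kk pc t1 t2 : ℕ → ℕ → ℕ) : Prop where
  bd : ∀ i < n, ∀ j < n, Rw s i j → kk i j < n ∧ pc i j < n ∧ t1 i j < n ∧ t2 i j < n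
  L0 : ∀ i < n, ∀ j < n, Rw s i j → ¬ (i = j ∧ kk i j = i)
  L1 : ∀ i < n, ∀ j < n, Rw s i j → ∀ k < n, (kd i j = true ∧ k = kk i j) ∨ (i = j ∧ k = i) ∨
    wx i k + wy k j < dgN wx wy kd kk i j
  L2 : ∀ i < n, ∀ j < n, Rw s i j → ∀ k < n, (kd i j = false ∧ k = kk i j) ∨ (i = j ∧ k = i) ∨
    wx k j + wy i k < dgN wx wy kd kk i j
  Ca : ∀ i < n, ∀ j < n, Rw s i j → ∀ i' < n, ∀ j' < n, Rw s i' j' →
    (if kd i j = true then (i, kk i j) else (kk i j, j)) =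
    (if kd i' j' = true then (i', kk i' j') else (kk i' j', j')) → (i, j) = (i', j')
  Cb : ∀ i < n, ∀ j < n, Rw s i j → ∀ i' < n, ∀ j' < n, Rw s i' j' →
    (if kd i j = true then (kk i j, j) else (i, kk i j)) =
    (if kd i' j' = true then (kk i' j', j') else (i', kk i' j')) → (i, j) = (i', j')
  P1 : ∀ i < n, ∀ j < n, Rw s i j → ∀ j' < n, Rw s i j' → pc i j = pc i j' → j = j'
  P2 : ∀ i < n, ∀ j < n, Rw s i j →
    (pc i j ≠ j ∧ t1 i j = pc i j ∧ t2 i j = j) ∨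
      (pc i j = j ∧ ((t1 i j = i ∧ t2 i j = i ∧ wx j j < wx i i) ∨
        (t1 i j = j ∧ t2 i j = j ∧ wx i i < wx j j)))
  P3 : ∀ i < n, ∀ j < n, Rw s i j → ∀ i' < n, ∀ j' < n, Rw s i' j' →
    (t1 i j, t2 i j) ≠ (if kd i' j' = true then (i', kk i' j') else (kk i' j', j'))
  Q : ∀ i < n, ∀ j < n, Rw s i j → ∀ i' < n, ∀ j' < n, Rw s i' j' → ¬ (i = i' ∧ j = j') →
    (pc i' j' = j → wx i i' + p i' j' < p i j + wx (t1 i' j') (t2 i' j')) ∧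
    (i' = i → wx (pc i' j') j + p i' j' < p i j + wx (t1 i' j') (t2 i' j'))

/-- the set of rows -/
def rowsN (n s : ℕ) : Set (Fin n × Fin n) := {f | Rw s f.1 f.2}

theorem NCert.toCert {n s : ℕ} {wx wy p : ℕ → ℕ → ℕ} {kd : ℕ → ℕ → Bool}
    {kk pc t1 t2 : ℕ → ℕ → ℕ} (C : NCert n s wx wy p kd kk pc t1 t2) (hn : 0 < n) :
    Cert (rowsN n s) (fun a b : Fin n => wx a b) (fun a b => wy a b) (fun f => p f.1 f.2)
      (fun f => kd f.1 f.2) (fun f => ⟨kk f.1 f.2 % n, Nat.mod_lt _ hn⟩)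
      (fun f => (f.1, ⟨pc f.1 f.2 % n, Nat.mod_lt _ hn⟩))
      (fun f => (⟨t1 f.1 f.2 % n, Nat.mod_lt _ hn⟩, ⟨t2 f.1 f.2 % n, Nat.mod_lt _ hn⟩)) := by
  have hk : ∀ f : Fin n × Fin n, f ∈ rowsN n s → kk f.1 f.2 % n = kk f.1 f.2 := fun f hf =>
    Nat.mod_eq_of_lt (C.bd _ f.1.2 _ f.2.2 hf).1
  have hc : ∀ f : Fin n × Fin n, f ∈ rowsN n s → pc f.1 f.2 % n = pc f.1 f.2 := fun f hf =>
    Nat.mod_eq_of_lt (C.bd _ f.1.2 _ f.2.2 hf).2.1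
  have h1 : ∀ f : Fin n × Fin n, f ∈ rowsN n s → t1 f.1 f.2 % n = t1 f.1 f.2 := fun f hf =>
    Nat.mod_eq_of_lt (C.bd _ f.1.2 _ f.2.2 hf).2.2.1
  have h2 : ∀ f : Fin n × Fin n, f ∈ rowsN n s → t2 f.1 f.2 % n = t2 f.1 f.2 := fun f hf =>
    Nat.mod_eq_of_lt (C.bd _ f.1.2 _ f.2.2 hf).2.2.2
  have hdg : ∀ f : Fin n × Fin n, f ∈ rowsN n s →
      dg (fun a b : Fin n => wx a b) (fun a b => wy a b) (fun f => kd f.1 f.2)
        (fun f => ⟨kk f.1 f.2 % n, Nat.mod_lt _ hn⟩) f = dgN wx wy kd kk f.1 f.2 := by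
    intro f hf
    simp only [dg, dgN, hk f hf]
  have hlx : ∀ f : Fin n × Fin n, f ∈ rowsN n s →
      ((lx (ι := Fin n) (fun f => kd f.1 f.2) (fun f : Fin n × Fin n => (⟨kk f.1 f.2 % n, Nat.mod_lt _ hn⟩ : Fin n)) f).1.1,
        (lx (ι := Fin n) (fun f => kd f.1 f.2) (fun f : Fin n × Fin n => (⟨kk f.1 f.2 % n, Nat.mod_lt _ hn⟩ : Fin n)) f).2.1) =
      (if kd f.1 f.2 = true then ((f.1 : ℕ), kk f.1 f.2) else (kk f.1 f.2, (f.2 : ℕ))) := by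
    intro f hf
    unfold lx
    split_ifs <;> simp [hk f hf]
  have hly : ∀ f : Fin n × Fin n, f ∈ rowsN n s →
      ((ly (ι := Fin n) (fun f => kd f.1 f.2) (fun f : Fin n × Fin n => (⟨kk f.1 f.2 % n, Nat.mod_lt _ hn⟩ : Fin n)) f).1.1,
        (ly (ι := Fin n) (fun f => kd f.1 f.2) (fun f : Fin n × Fin n => (⟨kk f.1 f.2 % n, Nat.mod_lt _ hn⟩ : Fin n)) f).2.1) =
      (if kd f.1 f.2 = true then (kk f.1 f.2, (f.2 : ℕ)) else ((f.1 : ℕ), kk f.1 f.2)) := by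
    intro f hf
    unfold ly
    split_ifs <;> simp [hk f hf]
  have hval : ∀ f g : Fin n × Fin n, ((f.1 : ℕ), (f.2 : ℕ)) = ((g.1 : ℕ), (g.2 : ℕ)) → f = g := by
    intro f g h
    rw [Prod.mk.injEq] at h
    exact Prod.ext (Fin.ext h.1) (Fin.ext h.2)
  refine ⟨?_, ?_, ?_, ?_, ?_, ?_, ?_, ?_, ?_⟩
  · rintro f hf ⟨h3, h4⟩
    refine C.L0 _ f.1.2 _ f.2.2 hf ⟨congrArg Fin.val h3, ?_⟩
    have := congrArg Fin.val h4
    simpa [hk f hf] using this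
  · intro f hf k
    rw [hdg f hf]
    rcases C.L1 _ f.1.2 _ f.2.2 hf k k.2 with h | h | h
    · exact Or.inl ⟨h.1, Fin.ext (by simp [hk f hf, h.2])⟩
    · exact Or.inr (Or.inl ⟨Fin.ext h.1, Fin.ext h.2⟩)
    · exact Or.inr (Or.inr h)
  · intro f hf k
    rw [hdg f hf]
    rcases C.L2 _ f.1.2 _ f.2.2 hf k k.2 with h | h | h
    · exact Or.inl ⟨h.1, Fin.ext (by simp [hk f hf, h.2])⟩
    · exact Or.inr (Or.inl ⟨Fin.ext h.1, Fin.ext h.2⟩)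
    · exact Or.inr (Or.inr h)
  · intro f hf g hg h
    refine hval f g (C.Ca _ f.1.2 _ f.2.2 hf _ g.1.2 _ g.2.2 hg ?_)
    rw [← hlx f hf, ← hlx g hg, h]
  · intro f hf g hg h
    refine hval f g (C.Cb _ f.1.2 _ f.2.2 hf _ g.1.2 _ g.2.2 hg ?_)
    rw [← hly f hf, ← hly g hg, h]
  · intro f hf g hg h
    simp only [Prod.mk.injEq, Fin.mk.injEq, hc f hf, hc g hg] at h
    obtain ⟨h3, h4⟩ := h
    have h5 : g = (f.1, g.2) := Prod.ext h3.symm rfl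
    have hg' : Rw s f.1 g.2 := by rw [h3]; exact hg
    rw [← h3] at h4
    exact Prod.ext h3 (Fin.ext (C.P1 _ f.1.2 _ f.2.2 hf _ g.2.2 hg' h4))
  · intro f hf
    refine ⟨rfl, ?_⟩
    rcases C.P2 _ f.1.2 _ f.2.2 hf with ⟨h3, h4, h5⟩ | ⟨h3, ⟨h4, h5, h6⟩ | ⟨h4, h5, h6⟩⟩
    · left
      refine ⟨fun h => h3 ((hc f hf).symm.trans (congrArg Fin.val h)),
        Prod.ext (Fin.ext ?_) (Fin.ext ?_)⟩
      · exact (h1 f hf).trans (h4.trans (hc f hf).symm)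
      · exact (h2 f hf).trans h5
    · right
      refine ⟨Fin.ext ((hc f hf).trans h3), Or.inl ⟨Prod.ext (Fin.ext ?_) (Fin.ext ?_), h6⟩⟩
      · exact (h1 f hf).trans h4
      · exact (h2 f hf).trans h5
    · right
      refine ⟨Fin.ext ((hc f hf).trans h3), Or.inr ⟨Prod.ext (Fin.ext ?_) (Fin.ext ?_), h6⟩⟩
      · exact (h1 f hf).trans h4
      · exact (h2 f hf).trans h5
  · intro f hf g hg h
    refine C.P3 _ f.1.2 _ f.2.2 hf _ g.1.2 _ g.2.2 hg ?_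
    rw [← hlx g hg, ← h]
    simp only [h1 f hf, h2 f hf]
  · intro f hf g hg hne
    have := C.Q _ f.1.2 _ f.2.2 hf _ g.1.2 _ g.2.2 hg
      (fun h => hne (hval f g (by rw [h.1, h.2])))
    simp only [hc g hg, h1 g hg, h2 g hg]
    refine ⟨fun h => this.1 ?_, fun h => this.2 (congrArg Fin.val h)⟩
    have h3 := congrArg Fin.val h
    simpa only [hc g hg] using h3

end Pool.Agent.K4H49.FR
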