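import Pool.Agent.K4H49.FR.Base

/-!
# From a certificate for `n0 = 4, 5` to certificates for `n0 + 2 Λ`
-/

namespace Pool.Agent.K4H49.FR

/-- the height -/
def ht (n0 La i : ℕ) : ℕ := if i < n0 then 3 * La else 3 * (La - ((i - n0) / 2 + 1))

/-- weights of the `x` variables -/
def LX (n0 La : ℕ) (T : ℕ → ℕ → ℕ) (i j : ℕ) : ℕ :=
  min (ht n0 La i) (ht n0 La j) +
    (if i < n0 ∧ j < n0 then T i j
     else if i = j then (if (i - n0) % 2 = 0 then 2 else 0)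
     else if n0 ≤ i ∧ (((i - n0) % 2 = 0 ∧ (j = 0 ∨ j = 2)) ∨ ((i - n0) % 2 = 1 ∧ (j = 1 ∨ j = 3)))
       then 2
     else if n0 ≤ i ∧ n0 ≤ j ∧ (i - n0) / 2 = (j - n0) / 2 then 0 else 1)

/-- weights of the `y` variables -/
def LY (n0 La : ℕ) (T : ℕ → ℕ → ℕ) (i j : ℕ) : ℕ :=
  min (ht n0 La i) (ht n0 La j) +
    (if i < n0 ∧ j < n0 then T i j
     else if n0 ≤ i ∧ n0 ≤ j ∧ (i - n0) / 2 = (j - n0) / 2 then 0
     else if n0 ≤ j ∧ (((j - n0) % 2 = 0 ∧ (i = 0 ∨ i = 3)) ∨ ((j - n0) % 2 = 1 ∧ (i = 1 ∨ i = 2)))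
       then 2 else 1)

def Lp (n0 : ℕ) (p : ℕ → ℕ → ℕ) (i j : ℕ) : ℕ := if i < n0 then p i j else if i = j then 0 else 1
def Lkd (n0 : ℕ) (kd : ℕ → ℕ → Bool) (i j : ℕ) : Bool := if i < n0 then kd i j else true
def Lkk (n0 : ℕ) (kk : ℕ → ℕ → ℕ) (i j : ℕ) : ℕ :=
  if i < n0 then kk i j else if i = j then (if (i - n0) % 2 = 0 then 0 else 1)
    else (if (i - n0) % 2 = 0 then 2 else 3)
def Lpc (n0 : ℕ) (pc : ℕ → ℕ → ℕ) (i j : ℕ) : ℕ :=
  if i < n0 then pc i j else if i = j then 0 else j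
def Lt1 (n0 : ℕ) (t : ℕ → ℕ → ℕ) (i j : ℕ) : ℕ :=
  if i < n0 then t i j else if i = j then 0 else (if (i - n0) % 2 = 0 then i else j)
def Lt2 (n0 : ℕ) (t : ℕ → ℕ → ℕ) (i j : ℕ) : ℕ :=
  if i < n0 then t i j else if i = j then i else (if (i - n0) % 2 = 0 then i else j)

variable {n0 s La : ℕ} {wx wy p : ℕ → ℕ → ℕ} {kd : ℕ → ℕ → Bool} {kk pc t1 t2 : ℕ → ℕ → ℕ}

/-- rows in the base -/
lemma row_base (hs : s ≤ 1) (hp : (n0 - s) % 2 = 0) (hn : 4 ≤ n0) {i j : ℕ} (h : Rw s i j)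
    (hi : i < n0) : j < n0 := by
  rcases h with ⟨h, -⟩ | ⟨h, -⟩
  · unfold tau at h; split_ifs at h <;> omega
  · omega

/-- a row in a layer -/
def LR (n0 La i j l : ℕ) : Prop := l < La ∧
      ((i = n0 + 2 * l ∧ j = n0 + 2 * l) ∨ (i = n0 + 2 * l + 1 ∧ j = n0 + 2 * l + 1) ∨
      (i = n0 + 2 * l ∧ j = n0 + 2 * l + 1) ∨ (i = n0 + 2 * l + 1 ∧ j = n0 + 2 * l))

/-- rows in the layers -/
lemma row_layer (hs : s ≤ 1) (hp : (n0 - s) % 2 = 0) (hn : 4 ≤ n0) {i j : ℕ} (h : Rw s i j)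
    (hi : n0 ≤ i) (hi2 : i < n0 + 2 * La) : ∃ l, LR n0 La i j l := by
  refine ⟨(i - n0) / 2, by omega, ?_⟩
  rcases h with ⟨h, h'⟩ | ⟨h, -⟩
  · unfold tau at h
    split_ifs at h with h1 h2 <;> omega
  · omega

lemma row_cases (hs : s ≤ 1) (hp : (n0 - s) % 2 = 0) (hn : 4 ≤ n0) {i j : ℕ} (h : Rw s i j)
    (hi2 : i < n0 + 2 * La) : (i < n0 ∧ j < n0) ∨ ∃ l, LR n0 La i j l := by
  rcases lt_or_ge i n0 with hi | hi
  · exact Or.inl ⟨hi, row_base hs hp hn h hi⟩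
  · exact Or.inr (row_layer hs hp hn h hi hi2)

lemma LX_bb {T : ℕ → ℕ → ℕ} {i j : ℕ} (hi : i < n0) (hj : j < n0) :
    LX n0 La T i j = 3 * La + T i j := by
  simp [LX, ht, hi, hj]

lemma LY_bb {T : ℕ → ℕ → ℕ} {i j : ℕ} (hi : i < n0) (hj : j < n0) :
    LY n0 La T i j = 3 * La + T i j := by
  simp [LY, ht, hi, hj]

lemma dg_base (C : NCert n0 s wx wy p kd kk pc t1 t2) {i j : ℕ} (h : Rw s i j) (hi : i < n0)
    (hj : j < n0) : dgN (LX n0 La wx) (LY n0 La wy) (Lkd n0 kd) (Lkk n0 kk) i j =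
      6 * La + dgN wx wy kd kk i j := by
  have hk := (C.bd i hi j hj h).1
  simp only [dgN, Lkd, Lkk, hi, if_true]
  split_ifs
  · rw [LX_bb hi hk, LY_bb hk hj]; ring
  · rw [LX_bb hk hj, LY_bb hi hk]; ring

/-- extra weight of `x i k` for `i` in a layer -/
def eX (n0 i k : ℕ) : ℕ :=
  if i = k then (if (i - n0) % 2 = 0 then 2 else 0)
  else if ((i - n0) % 2 = 0 ∧ (k = 0 ∨ k = 2)) ∨ ((i - n0) % 2 = 1 ∧ (k = 1 ∨ k = 3)) then 2
  else if n0 ≤ k ∧ (i - n0) / 2 = (k - n0) / 2 then 0 else 1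

/-- extra weight of `y k i` for `i` in a layer -/
def eY (n0 i k : ℕ) : ℕ :=
  if n0 ≤ k ∧ (k - n0) / 2 = (i - n0) / 2 then 0
  else if ((i - n0) % 2 = 0 ∧ (k = 0 ∨ k = 3)) ∨ ((i - n0) % 2 = 1 ∧ (k = 1 ∨ k = 2)) then 2
  else 1

lemma LX_eq {i k : ℕ} (hi : n0 ≤ i) :
    LX n0 La wx i k = min (3 * (La - ((i - n0) / 2 + 1))) (ht n0 La k) + eX n0 i k := by
  have h0 : ¬ i < n0 := by omega
  simp only [LX, ht, h0, if_false, false_and, hi, true_and, eX]

lemma LY_eq {i k : ℕ} (hi : n0 ≤ i) :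
    LY n0 La wy k i = min (ht n0 La k) (3 * (La - ((i - n0) / 2 + 1))) + eY n0 i k := by
  have h0 : ¬ i < n0 := by omega
  simp only [LY, ht, h0, if_false, and_false, hi, true_and, eY]

lemma ht_base {k : ℕ} (hk : k < n0) : ht n0 La k = 3 * La := by simp [ht, hk]

lemma ht_layer {k : ℕ} (hk : n0 ≤ k) : ht n0 La k = 3 * (La - ((k - n0) / 2 + 1)) := by
  simp [ht, not_lt.2 hk]

lemma eX_a {l k : ℕ} (hn : 4 ≤ n0) : eX n0 (n0 + 2 * l) k =
    if k = n0 + 2 * l ∨ k = 0 ∨ k = 2 then 2 else if k = n0 + 2 * l + 1 then 0 else 1 := by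
  unfold eX; split_ifs <;> omega

lemma eX_b {l k : ℕ} (hn : 4 ≤ n0) : eX n0 (n0 + 2 * l + 1) k =
    if k = 1 ∨ k = 3 then 2 else if k = n0 + 2 * l ∨ k = n0 + 2 * l + 1 then 0 else 1 := by
  unfold eX; split_ifs <;> omega

lemma eY_a {l k : ℕ} (hn : 4 ≤ n0) : eY n0 (n0 + 2 * l) k =
    if k = 0 ∨ k = 3 then 2 else if k = n0 + 2 * l ∨ k = n0 + 2 * l + 1 then 0 else 1 := by
  unfold eY; split_ifs <;> omega

lemma eY_b {l k : ℕ} (hn : 4 ≤ n0) : eY n0 (n0 + 2 * l + 1) k =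
    if k = 1 ∨ k = 2 then 2 else if k = n0 + 2 * l ∨ k = n0 + 2 * l + 1 then 0 else 1 := by
  unfold eY; split_ifs <;> omega

lemma hA {l : ℕ} : (n0 + 2 * l - n0) / 2 = l := by omega
lemma hB {l : ℕ} : (n0 + 2 * l + 1 - n0) / 2 = l := by omega

lemma dg_layer (hn : 4 ≤ n0) {i j l : ℕ} (h : LR n0 La i j l) :
    dgN (LX n0 La wx) (LY n0 La wy) (Lkd n0 kd) (Lkk n0 kk) i j = 2 * (3 * (La - (l + 1))) + 4 := by
  obtain ⟨hl, h⟩ := h
  have h0 : ¬ i < n0 := by omega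
  have h00 : ht n0 La 0 = 3 * La := ht_base (by omega)
  have h01 : ht n0 La 1 = 3 * La := ht_base (by omega)
  have h02 : ht n0 La 2 = 3 * La := ht_base (by omega)
  have h03 : ht n0 La 3 = 3 * La := ht_base (by omega)
  have h1 : (2 * l) % 2 = 0 := by omega
  have h2 : (2 * l + 1) % 2 = 1 := by omega
  have h3 : n0 + 2 * l - n0 = 2 * l := by omega
  have h4 : n0 + 2 * l + 1 - n0 = 2 * l + 1 := by omega
  simp only [dgN, Lkd, Lkk, h0, if_false, if_true]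
  rcases h with ⟨rfl, rfl⟩ | ⟨rfl, rfl⟩ | ⟨rfl, rfl⟩ | ⟨rfl, rfl⟩
  · simp only [h3, h1, if_true]
    rw [LX_eq (by omega), LY_eq (by omega), hA, eX_a hn, eY_a hn, h00]
    simp; omega
  · simp only [h4, h2, if_true, one_ne_zero, if_false]
    rw [LX_eq (by omega), LY_eq (by omega), hB, eX_b hn, eY_b hn, h01]
    simp; omega
  · simp only [h3, h1, if_true, if_neg (show ¬ n0 + 2 * l = n0 + 2 * l + 1 by omega)]
    rw [LX_eq (by omega), LY_eq (by omega), hA, hB, eX_a hn, eY_b hn, h02]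
    simp; omega
  · simp only [h4, h2, if_true, one_ne_zero, if_false,
      if_neg (show ¬ n0 + 2 * l + 1 = n0 + 2 * l by omega)]
    rw [LX_eq (by omega), LY_eq (by omega), hA, hB, eX_b hn, eY_a hn, h03]
    simp; omega

lemma LX_le {i k : ℕ} (hi : n0 ≤ i) :
    LX n0 La wx i k ≤ 3 * (La - ((i - n0) / 2 + 1)) + eX n0 i k := by
  rw [LX_eq hi]; gcongr; exact min_le_left _ _

lemma LY_le {i k : ℕ} (hi : n0 ≤ i) :
    LY n0 La wy k i ≤ 3 * (La - ((i - n0) / 2 + 1)) + eY n0 i k := by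
  rw [LY_eq hi]; gcongr; exact min_le_right _ _

lemma LX_le' {j k : ℕ} (hn : 4 ≤ n0) (hj : n0 ≤ j) :
    LX n0 La wx k j ≤ 3 * (La - ((j - n0) / 2 + 1)) + 2 := by
  have h0 : ¬ j < n0 := by omega
  have h1 : ht n0 La j = 3 * (La - ((j - n0) / 2 + 1)) := ht_layer hj
  have h2 : min (ht n0 La k) (ht n0 La j) ≤ ht n0 La j := min_le_right _ _
  rw [← h1]
  simp only [LX, h0, and_false, if_false]
  split_ifs <;> omega

lemma LY_le' {i k : ℕ} (hn : 4 ≤ n0) (hi : n0 ≤ i) :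
    LY n0 La wy i k ≤ 3 * (La - ((i - n0) / 2 + 1)) + 1 := by
  have h0 : ¬ i < n0 := by omega
  have h1 : ht n0 La i = 3 * (La - ((i - n0) / 2 + 1)) := ht_layer hi
  have h2 : min (ht n0 La i) (ht n0 La k) ≤ ht n0 La i := min_le_left _ _
  have h3 : ¬ (i = 0 ∨ i = 3) := by omega
  have h4 : ¬ (i = 1 ∨ i = 2) := by omega
  rw [← h1]
  simp only [LY, h0, false_and, if_false, h3, h4, and_false, or_self]
  split_ifs <;> omega

lemma L1_layer (hn : 4 ≤ n0) {i j l : ℕ} (k : ℕ) (h : LR n0 La i j l) :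
    (k = Lkk n0 kk i j) ∨ (i = j ∧ k = i) ∨
      LX n0 La wx i k + LY n0 La wy k j < 2 * (3 * (La - (l + 1))) + 4 := by
  obtain ⟨hl, h⟩ := h
  have h0 : ¬ i < n0 := by omega
  have h1 : (2 * l) % 2 = 0 := by omega
  have h2 : (2 * l + 1) % 2 = 1 := by omega
  have h3 : n0 + 2 * l - n0 = 2 * l := by omega
  have h4 : n0 + 2 * l + 1 - n0 = 2 * l + 1 := by omega
  have hx := LX_le (La := La) (wx := wx) (n0 := n0) (i := i) (k := k) (by omega)
  have hy := LY_le (La := La) (wy := wy) (n0 := n0) (i := j) (k := k) (by omega)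
  simp only [Lkk, h0, if_false]
  rcases h with ⟨rfl, rfl⟩ | ⟨rfl, rfl⟩ | ⟨rfl, rfl⟩ | ⟨rfl, rfl⟩
  · simp only [h3, h1, if_true]
    rw [hA, eX_a hn] at hx
    rw [hA, eY_a hn] at hy
    split_ifs at hx hy <;> omega
  · simp only [h4, h2, if_true, one_ne_zero, if_false]
    rw [hB, eX_b hn] at hx
    rw [hB, eY_b hn] at hy
    split_ifs at hx hy <;> omega
  · simp only [h3, h1, if_true, if_neg (show ¬ n0 + 2 * l = n0 + 2 * l + 1 by omega)]
    rw [hA, eX_a hn] at hx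
    rw [hB, eY_b hn] at hy
    split_ifs at hx hy <;> omega
  · simp only [h4, h2, if_true, one_ne_zero, if_false,
      if_neg (show ¬ n0 + 2 * l + 1 = n0 + 2 * l by omega)]
    rw [hB, eX_b hn] at hx
    rw [hA, eY_a hn] at hy
    split_ifs at hx hy <;> omega

lemma L2_layer (hn : 4 ≤ n0) {i j l : ℕ} (k : ℕ) (h : LR n0 La i j l) :
      LX n0 La wx k j + LY n0 La wy i k < 2 * (3 * (La - (l + 1))) + 4 := by
  obtain ⟨hl, h⟩ := h
  have hx := LX_le' (La := La) (wx := wx) (n0 := n0) (j := j) (k := k) hn (by omega)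
  have hy := LY_le' (La := La) (wy := wy) (n0 := n0) (i := i) (k := k) hn (by omega)
  have h1 : (i - n0) / 2 = l := by omega
  have h2 : (j - n0) / 2 = l := by omega
  rw [h2] at hx
  rw [h1] at hy
  omega

lemma L1_far {i j k : ℕ} (hi : i < n0) (hj : j < n0) (hk : n0 ≤ k) (hk2 : k < n0 + 2 * La) :
      LX n0 La wx i k + LY n0 La wy k j < 6 * La := by
  have h0 : ¬ k < n0 := by omega
  have h1 : ht n0 La k + 3 ≤ 3 * La := by rw [ht_layer hk]; omega
  have h2 : min (ht n0 La i) (ht n0 La k) ≤ ht n0 La k := min_le_right _ _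
  have h3 : min (ht n0 La k) (ht n0 La j) ≤ ht n0 La k := min_le_left _ _
  have h4 : ¬ n0 ≤ i := by omega
  have h5 : ¬ n0 ≤ j := by omega
  have h6 : ¬ i = k := by omega
  simp only [LX, LY, h0, h4, h5, h6, false_and, and_false, if_false]
  omega

lemma L2_far {i j k : ℕ} (hi : i < n0) (hj : j < n0) (hk : n0 ≤ k) (hk2 : k < n0 + 2 * La) :
      LX n0 La wx k j + LY n0 La wy i k < 6 * La := by
  have h0 : ¬ k < n0 := by omega
  have h1 : ht n0 La k + 3 ≤ 3 * La := by rw [ht_layer hk]; omega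
  have h2 : min (ht n0 La i) (ht n0 La k) ≤ ht n0 La k := min_le_right _ _
  have h3 : min (ht n0 La k) (ht n0 La j) ≤ ht n0 La k := min_le_left _ _
  have h4 : ¬ n0 ≤ i := by omega
  have h5 : ¬ n0 ≤ j := by omega
  have h6 : ¬ k = j := by omega
  simp only [LX, LY, h0, h4, h5, h6, false_and, and_false, if_false]
  split_ifs <;> omega

/-- the values of the parameters on a layer row -/
lemma lay_vals (hn : 4 ≤ n0) {i j l : ℕ} (h : LR n0 La i j l) :
    n0 ≤ i ∧ n0 ≤ j ∧ Lkd n0 kd i j = true ∧ Lkk n0 kk i j < 4 ∧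
    ((i = j ∧ Lkk n0 kk i j < 2) ∨ (i ≠ j ∧ 2 ≤ Lkk n0 kk i j)) ∧
    ((i = j ∧ Lpc n0 pc i j = 0 ∧ Lp n0 p i j = 0 ∧ Lt1 n0 t1 i j = 0 ∧ Lt2 n0 t2 i j = i) ∨
     (i ≠ j ∧ Lpc n0 pc i j = j ∧ Lp n0 p i j = 1 ∧ Lt1 n0 t1 i j = n0 + 2 * l ∧
       Lt2 n0 t2 i j = n0 + 2 * l)) := by
  obtain ⟨hl, h⟩ := h
  have h0 : ¬ i < n0 := by omega
  have h1 : (2 * l) % 2 = 0 := by omega
  have h2 : (2 * l + 1) % 2 = 1 := by omega
  have h3 : n0 + 2 * l - n0 = 2 * l := by omega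
  have h4 : n0 + 2 * l + 1 - n0 = 2 * l + 1 := by omega
  simp only [Lkk, Lkd, Lpc, Lp, Lt1, Lt2, h0, if_false]
  rcases h with ⟨rfl, rfl⟩ | ⟨rfl, rfl⟩ | ⟨rfl, rfl⟩ | ⟨rfl, rfl⟩
  · simp only [h3, h1, if_true]; simp
  · simp only [h4, h2, if_true, one_ne_zero, if_false]; simp; omega
  · simp only [h3, h1, if_true, if_neg (show ¬ n0 + 2 * l = n0 + 2 * l + 1 by omega)]; simp; omega
  · simp only [h4, h2, one_ne_zero, if_false,
      if_neg (show ¬ n0 + 2 * l + 1 = n0 + 2 * l by omega)]; simp; omega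

/-- the weights between the two indices of a layer -/
lemma LX_aa {l : ℕ} (hn : 4 ≤ n0) (hl : l < La) :
    LX n0 La wx (n0 + 2 * l) (n0 + 2 * l) = 3 * (La - (l + 1)) + 2 := by
  rw [LX_eq (by omega), ht_layer (by omega), hA, eX_a hn]; simp

lemma LX_bb' {l : ℕ} (hn : 4 ≤ n0) (hl : l < La) :
    LX n0 La wx (n0 + 2 * l + 1) (n0 + 2 * l + 1) = 3 * (La - (l + 1)) := by
  rw [LX_eq (by omega), ht_layer (by omega), hB, eX_b hn]; simp; omega

lemma LX_ab {l : ℕ} (hn : 4 ≤ n0) (hl : l < La) :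
    LX n0 La wx (n0 + 2 * l) (n0 + 2 * l + 1) = 3 * (La - (l + 1)) := by
  rw [LX_eq (by omega), ht_layer (by omega), hA, hB, eX_a hn]; simp; omega

lemma LX_ba {l : ℕ} (hn : 4 ≤ n0) (hl : l < La) :
    LX n0 La wx (n0 + 2 * l + 1) (n0 + 2 * l) = 3 * (La - (l + 1)) := by
  rw [LX_eq (by omega), ht_layer (by omega), hA, hB, eX_b hn]; simp; omega

/-- the weights of the `x` variables from the base to a layer -/
lemma LX_far {i k : ℕ} (hi : i < n0) (hk : n0 ≤ k) (hk2 : k < n0 + 2 * La) :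
    LX n0 La wx i k = ht n0 La k + 1 := by
  have h0 : ¬ k < n0 := by omega
  have h1 : ht n0 La k + 3 ≤ 3 * La := by rw [ht_layer hk]; omega
  have h4 : ¬ n0 ≤ i := by omega
  have h6 : ¬ i = k := by omega
  simp only [LX, h0, h4, h6, false_and, and_false, if_false]
  rw [ht_base hi]; omega

theorem step (C : NCert n0 s wx wy p kd kk pc t1 t2) (hs : s ≤ 1) (hp : (n0 - s) % 2 = 0)
    (hn : 4 ≤ n0) (hp0 : ∀ i < n0, ∀ j < n0, Rw s i j → 1 ≤ p i j) :
    NCert (n0 + 2 * La) s (LX n0 La wx) (LY n0 La wy) (Lp n0 p) (Lkd n0 kd) (Lkk n0 kk)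
      (Lpc n0 pc) (Lt1 n0 t1) (Lt2 n0 t2) := by
  -- the values in the base
  have bv : ∀ i j, i < n0 → Lkd n0 kd i j = kd i j ∧ Lkk n0 kk i j = kk i j ∧
      Lpc n0 pc i j = pc i j ∧ Lp n0 p i j = p i j ∧ Lt1 n0 t1 i j = t1 i j ∧
      Lt2 n0 t2 i j = t2 i j := by
    intro i j hi
    simp [Lkd, Lkk, Lpc, Lp, Lt1, Lt2, hi]
  -- the x leading variables
  have lxv : ∀ i j, i < n0 + 2 * La → Rw s i j →
      (i < n0 ∧ (if Lkd n0 kd i j = true then (i, Lkk n0 kk i j) else (Lkk n0 kk i j, j)) =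
        (if kd i j = true then (i, kk i j) else (kk i j, j)) ∧
        ((if kd i j = true then (i, kk i j) else (kk i j, j)) : ℕ × ℕ).1 < n0 ∧
        ((if kd i j = true then (i, kk i j) else (kk i j, j)) : ℕ × ℕ).2 < n0) ∨
      (n0 ≤ i ∧ (if Lkd n0 kd i j = true then (i, Lkk n0 kk i j) else (Lkk n0 kk i j, j)) =
        (i, Lkk n0 kk i j) ∧ Lkk n0 kk i j < 4) := by
    intro i j hi h
    rcases row_cases hs hp hn h hi with ⟨h1, h2⟩ | ⟨l, hl⟩
    · obtain ⟨b1, b2, -⟩ := bv i j h1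
      refine Or.inl ⟨h1, by rw [b1, b2], ?_, ?_⟩
      · have := (C.bd i h1 j h2 h).1
        split_ifs <;> simpa
      · have := (C.bd i h1 j h2 h).1
        split_ifs <;> simpa
    · obtain ⟨c1, c2, c3, c4, -⟩ := lay_vals (kd := kd) (kk := kk) (pc := pc) (p := p) (t1 := t1)
        (t2 := t2) hn hl
      exact Or.inr ⟨c1, by rw [if_pos c3], c4⟩
  refine ⟨?_, ?_, ?_, ?_, ?_, ?_, ?_, ?_, ?_, ?_⟩
  · -- bd
    intro i hi j hj h
    rcases row_cases hs hp hn h hi with ⟨h1, h2⟩ | ⟨l, hl⟩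
    · obtain ⟨b1, b2, b3, b4, b5, b6⟩ := bv i j h1
      have := C.bd i h1 j h2 h
      rw [b2, b3, b5, b6]; omega
    · have := lay_vals (kd := kd) (kk := kk) (pc := pc) (p := p) (t1 := t1)
        (t2 := t2) hn hl
      have h3 := hl.1
      obtain ⟨c1, c2, c3, c4, -, c5⟩ := this
      rcases c5 with c5 | c5 <;> omega
  · -- L0
    rintro i hi j hj h ⟨h3, h4⟩
    rcases row_cases hs hp hn h hi with ⟨h1, h2⟩ | ⟨l, hl⟩
    · obtain ⟨b1, b2, b3, b4, b5, b6⟩ := bv i j h1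
      exact C.L0 i h1 j h2 h ⟨h3, b2 ▸ h4⟩
    · obtain ⟨c1, c2, c3, c4, -⟩ := lay_vals (kd := kd) (kk := kk) (pc := pc) (p := p) (t1 := t1)
        (t2 := t2) hn hl
      omega
  · -- L1
    intro i hi j hj h k hk
    rcases row_cases hs hp hn h hi with ⟨h1, h2⟩ | ⟨l, hl⟩
    · obtain ⟨b1, b2, -⟩ := bv i j h1
      rw [dg_base C h h1 h2, b1, b2]
      rcases lt_or_ge k n0 with hk' | hk'
      · rw [LX_bb h1 hk', LY_bb hk' h2]
        rcases C.L1 i h1 j h2 h k hk' with h3 | h3 | h3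
        · exact Or.inl h3
        · exact Or.inr (Or.inl h3)
        · exact Or.inr (Or.inr (by omega))
      · have := L1_far (La := La) (wx := wx) (wy := wy) h1 h2 hk' hk
        exact Or.inr (Or.inr (by omega))
    · obtain ⟨c1, c2, c3, c4, -⟩ := lay_vals (kd := kd) (kk := kk) (pc := pc) (p := p) (t1 := t1)
        (t2 := t2) hn hl
      rw [dg_layer hn hl, c3]
      rcases L1_layer (La := La) (kk := kk) (wx := wx) (wy := wy) hn k hl with h3 | h3 | h3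
      · exact Or.inl ⟨rfl, h3⟩
      · exact Or.inr (Or.inl h3)
      · exact Or.inr (Or.inr h3)
  · -- L2
    intro i hi j hj h k hk
    rcases row_cases hs hp hn h hi with ⟨h1, h2⟩ | ⟨l, hl⟩
    · obtain ⟨b1, b2, -⟩ := bv i j h1
      rw [dg_base C h h1 h2, b1, b2]
      rcases lt_or_ge k n0 with hk' | hk'
      · rw [LX_bb hk' h2, LY_bb h1 hk']
        rcases C.L2 i h1 j h2 h k hk' with h3 | h3 | h3
        · exact Or.inl h3
        · exact Or.inr (Or.inl h3)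
        · exact Or.inr (Or.inr (by omega))
      · have := L2_far (La := La) (wx := wx) (wy := wy) h1 h2 hk' hk
        exact Or.inr (Or.inr (by omega))
    · rw [dg_layer hn hl]
      exact Or.inr (Or.inr (L2_layer hn k hl))
  · -- Ca
    intro i hi j hj h i' hi' j' hj' h' he
    rcases lxv i j hi h with ⟨g1, g2, g3, g4⟩ | ⟨g1, g2, g3⟩ <;>
      rcases lxv i' j' hi' h' with ⟨f1, f2, f3, f4⟩ | ⟨f1, f2, f3⟩
    · rw [g2, f2] at he
      exact C.Ca i g1 j (row_base hs hp hn h g1) h i' f1 j' (row_base hs hp hn h' f1) h' he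
    · rw [g2, f2] at he
      rw [he] at g3
      simp at g3; omega
    · rw [g2, f2] at he
      rw [← he] at f3
      simp at f3; omega
    · rw [g2, f2, Prod.mk.injEq] at he
      obtain ⟨rfl, he⟩ := he
      rcases row_cases hs hp hn h hi with ⟨h1, h2⟩ | ⟨l, hl⟩
      · omega
      rcases row_cases hs hp hn h' hi' with ⟨h1, h2⟩ | ⟨l', hl'⟩
      · omega
      obtain ⟨-, -, -, -, c5, -⟩ := lay_vals (kd := kd) (kk := kk) (pc := pc) (p := p) (t1 := t1)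
        (t2 := t2) hn hl
      obtain ⟨-, -, -, -, d5, -⟩ := lay_vals (kd := kd) (kk := kk) (pc := pc) (p := p) (t1 := t1)
        (t2 := t2) hn hl'
      have e1 := hl.2
      have e2 := hl'.2
      rw [Prod.mk.injEq]
      refine ⟨rfl, ?_⟩
      omega
  · -- Cb
    intro i hi j hj h i' hi' j' hj' h' he
    rcases row_cases hs hp hn h hi with ⟨h1, h2⟩ | ⟨l, hl⟩ <;>
      rcases row_cases hs hp hn h' hi' with ⟨h3, h4⟩ | ⟨l', hl'⟩
    · obtain ⟨b1, b2, -⟩ := bv i j h1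
      obtain ⟨a1, a2, -⟩ := bv i' j' h3
      rw [b1, b2, a1, a2] at he
      exact C.Cb i h1 j h2 h i' h3 j' h4 h' he
    · obtain ⟨b1, b2, -⟩ := bv i j h1
      obtain ⟨c1, c2, c3, c4, -⟩ := lay_vals (kd := kd) (kk := kk) (pc := pc) (p := p) (t1 := t1)
        (t2 := t2) hn hl'
      have hb := (C.bd i h1 j h2 h).1
      rw [b1, b2, if_pos c3] at he
      split_ifs at he
      · rw [Prod.mk.injEq] at he; omega
      · rw [Prod.mk.injEq] at he; omega
    · obtain ⟨b1, b2, -⟩ := bv i' j' h3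
      obtain ⟨c1, c2, c3, c4, -⟩ := lay_vals (kd := kd) (kk := kk) (pc := pc) (p := p) (t1 := t1)
        (t2 := t2) hn hl
      have hb := (C.bd i' h3 j' h4 h').1
      rw [b1, b2, if_pos c3] at he
      split_ifs at he
      · rw [Prod.mk.injEq] at he; omega
      · rw [Prod.mk.injEq] at he; omega
    · obtain ⟨-, -, c3, -, c5, -⟩ := lay_vals (kd := kd) (kk := kk) (pc := pc) (p := p) (t1 := t1)
        (t2 := t2) hn hl
      obtain ⟨-, -, d3, -, d5, -⟩ := lay_vals (kd := kd) (kk := kk) (pc := pc) (p := p) (t1 := t1)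
        (t2 := t2) hn hl'
      rw [if_pos c3, if_pos d3, Prod.mk.injEq] at he
      obtain ⟨he, rfl⟩ := he
      have e1 := hl.2
      have e2 := hl'.2
      rw [Prod.mk.injEq]
      refine ⟨?_, rfl⟩
      omega
  · -- P1
    intro i hi j hj h j' hj' h' he
    rcases row_cases hs hp hn h hi with ⟨h1, h2⟩ | ⟨l, hl⟩ <;>
      rcases row_cases hs hp hn h' hi with ⟨h3, h4⟩ | ⟨l', hl'⟩
    · obtain ⟨-, -, b3, -⟩ := bv i j h1
      obtain ⟨-, -, a3, -⟩ := bv i j' h1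
      rw [b3, a3] at he
      exact C.P1 i h1 j h2 h j' h4 h' he
    · have := hl'.2; omega
    · have := hl.2; omega
    · obtain ⟨-, -, -, -, -, c5⟩ := lay_vals (kd := kd) (kk := kk) (pc := pc) (p := p) (t1 := t1)
        (t2 := t2) hn hl
      obtain ⟨-, -, -, -, -, d5⟩ := lay_vals (kd := kd) (kk := kk) (pc := pc) (p := p) (t1 := t1)
        (t2 := t2) hn hl'
      have e1 := hl.2
      have e2 := hl'.2
      rcases c5 with ⟨c1, c2, -⟩ | ⟨c1, c2, -⟩ <;> rcases d5 with ⟨d1, d2, -⟩ | ⟨d1, d2, -⟩ <;> omega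
  · -- P2
    intro i hi j hj h
    rcases row_cases hs hp hn h hi with ⟨h1, h2⟩ | ⟨l, hl⟩
    · obtain ⟨-, -, b3, -, b5, b6⟩ := bv i j h1
      rw [b3, b5, b6, LX_bb h1 h1, LX_bb h2 h2]
      rcases C.P2 i h1 j h2 h with h3 | ⟨h3, h4 | h4⟩
      · exact Or.inl h3
      · exact Or.inr ⟨h3, Or.inl ⟨h4.1, h4.2.1, by omega⟩⟩
      · exact Or.inr ⟨h3, Or.inr ⟨h4.1, h4.2.1, by omega⟩⟩
    · obtain ⟨c1, -, -, -, -, c5⟩ := lay_vals (kd := kd) (kk := kk) (pc := pc) (p := p) (t1 := t1)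
        (t2 := t2) hn hl
      have g1 := LX_aa (wx := wx) hn hl.1
      have g2 := LX_bb' (wx := wx) hn hl.1
      rcases c5 with ⟨d1, d2, -, d3, d4⟩ | ⟨d1, d2, -, d3, d4⟩
      · left
        rw [d2, d3, d4]
        exact ⟨by omega, rfl, d1⟩
      · right
        refine ⟨d2, ?_⟩
        rw [d3, d4]
        rcases hl.2 with ⟨e1, e2⟩ | ⟨e1, e2⟩ | ⟨e1, e2⟩ | ⟨e1, e2⟩
        · omega
        · omega
        · left; subst e1 e2; rw [g1, g2]; exact ⟨rfl, rfl, by omega⟩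
        · right; subst e1 e2; rw [g1, g2]; exact ⟨rfl, rfl, by omega⟩
  · -- P3
    intro i hi j hj h i' hi' j' hj' h' he
    rcases row_cases hs hp hn h hi with ⟨h1, h2⟩ | ⟨l, hl⟩ <;>
      rcases lxv i' j' hi' h' with ⟨f1, f2, f3, f4⟩ | ⟨f1, f2, f3⟩
    · obtain ⟨-, -, -, -, b5, b6⟩ := bv i j h1
      rw [f2, b5, b6] at he
      exact C.P3 i h1 j h2 h i' f1 j' (row_base hs hp hn h' f1) h' he
    · obtain ⟨-, -, -, -, b5, b6⟩ := bv i j h1
      have := C.bd i h1 j h2 h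
      rw [f2, b5, b6, Prod.mk.injEq] at he
      omega
    · obtain ⟨c1, -, -, -, -, c5⟩ := lay_vals (kd := kd) (kk := kk) (pc := pc) (p := p) (t1 := t1)
        (t2 := t2) hn hl
      rw [f2] at he
      rw [← he] at f3 f4
      simp only at f3 f4
      rcases c5 with ⟨d1, d2, -, d3, d4⟩ | ⟨d1, d2, -, d3, d4⟩ <;> omega
    · obtain ⟨c1, -, -, -, -, c5⟩ := lay_vals (kd := kd) (kk := kk) (pc := pc) (p := p) (t1 := t1)
        (t2 := t2) hn hl
      rw [f2, Prod.mk.injEq] at he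
      rcases c5 with ⟨d1, d2, -, d3, d4⟩ | ⟨d1, d2, -, d3, d4⟩ <;> omega
  · -- Q
    intro i hi j hj h i' hi' j' hj' h' hne
    rcases row_cases hs hp hn h hi with ⟨h1, h2⟩ | ⟨l, hl⟩ <;>
      rcases row_cases hs hp hn h' hi' with ⟨h3, h4⟩ | ⟨l', hl'⟩
    · obtain ⟨-, -, b3, b4, b5, b6⟩ := bv i j h1
      obtain ⟨-, -, a3, a4, a5, a6⟩ := bv i' j' h3
      obtain ⟨-, h5, h6, h7⟩ := C.bd i' h3 j' h4 h'
      rw [b4, a3, a4, a5, a6, LX_bb h1 h3, LX_bb h6 h7, LX_bb h5 h2]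
      obtain ⟨q1, q2⟩ := C.Q i h1 j h2 h i' h3 j' h4 h' hne
      exact ⟨fun e => by have := q1 e; omega, fun e => by have := q2 e; omega⟩
    · obtain ⟨-, -, b3, b4, b5, b6⟩ := bv i j h1
      obtain ⟨c1, c2, -, -, -, c5⟩ := lay_vals (kd := kd) (kk := kk) (pc := pc) (p := p) (t1 := t1)
        (t2 := t2) hn hl'
      have hp1 := hp0 i h1 j h2 h
      have hi'2 : i' < n0 + 2 * La := hi'
      refine ⟨fun e => ?_, fun e => by omega⟩
      rcases c5 with ⟨d1, d2, d5, d3, d4⟩ | ⟨d1, d2, d5, d3, d4⟩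
      · rw [d5, d3, d4, b4, LX_far h1 c1 hi', LX_far (by omega) c1 hi']
        omega
      · omega
    · obtain ⟨-, -, b3, b4, b5, b6⟩ := bv i' j' h3
      obtain ⟨c1, c2, -, -, -, c5⟩ := lay_vals (kd := kd) (kk := kk) (pc := pc) (p := p) (t1 := t1)
        (t2 := t2) hn hl
      have := C.bd i' h3 j' h4 h'
      exact ⟨fun e => by omega, fun e => by omega⟩
    · obtain ⟨c1, c2, -, -, -, c5⟩ := lay_vals (kd := kd) (kk := kk) (pc := pc) (p := p) (t1 := t1)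
        (t2 := t2) hn hl
      obtain ⟨d1, d2, -, -, -, d5⟩ := lay_vals (kd := kd) (kk := kk) (pc := pc) (p := p) (t1 := t1)
        (t2 := t2) hn hl'
      have g1 := LX_aa (wx := wx) hn hl'.1
      have g2 := LX_bb' (wx := wx) hn hl'.1
      have g3 := LX_ab (wx := wx) hn hl'.1
      have g4 := LX_ba (wx := wx) hn hl'.1
      refine ⟨fun e => ?_, fun e => ?_⟩
      · rcases d5 with ⟨d51, d52, d53, d54, d55⟩ | ⟨d51, d52, d53, d54, d55⟩
        · omega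
        · rw [d53, d54, d55, g1]
          rw [d52] at e
          subst e
          have e1 := hl.2
          have e2 := hl'.2
          have e3 : l = l' := by omega
          subst e3
          rcases hl'.2 with ⟨f1, f2⟩ | ⟨f1, f2⟩ | ⟨f1, f2⟩ | ⟨f1, f2⟩
          · omega
          · omega
          · have f3 : i = n0 + 2 * l + 1 := by omega
            rw [f1, f3, g4]; omega
          · have f3 : i = n0 + 2 * l := by omega
            rw [f1, f3, g3]; omega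
      · subst e
        have e1 := hl.2
        have e2 := hl'.2
        have e3 : l = l' := by omega
        subst e3
        rcases c5 with ⟨c51, c52, c53, c54, c55⟩ | ⟨c51, c52, c53, c54, c55⟩
        · -- (i, i) against (i, pair)
          rcases d5 with ⟨d51, d52, d53, d54, d55⟩ | ⟨d51, d52, d53, d54, d55⟩
          · omega
          · rw [d52, d53, d54, d55, g1, c53]
            rcases hl'.2 with ⟨f1, f2⟩ | ⟨f1, f2⟩ | ⟨f1, f2⟩ | ⟨f1, f2⟩
            · omega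
            · omega
            · rw [f2, ← c51, f1, g4]; omega
            · rw [f2, ← c51, f1, g3]; omega
        · rcases d5 with ⟨d51, d52, d53, d54, d55⟩ | ⟨d51, d52, d53, d54, d55⟩
          · rw [d52, d53, d54, d55, c53, LX_far (by omega) c2 hj, LX_far (by omega) d1 hi]
            rw [ht_layer c2, ht_layer d1]
            have : (i' - n0) / 2 = (j - n0) / 2 := by omega
            rw [this]; omega
          · omega

end Pool.Agent.K4H49.FR
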