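import Pool.Agent.K4H49.FR.Tc

/-!
# Quotients by families of polynomials which are linear in the pivot variables
-/

namespace Pool.Agent.K4H49.FR

open MvPolynomial

/-- `p^(-e)`-linear maps, `q = p^e` -/
def QLin {A : Type*} [CommRing A] (q : ℕ) (Ψ : A →+ A) : Prop := ∀ a b : A, Ψ (a ^ q * b) = a * Ψ b

/-- additive map given on monomials -/
noncomputable def lin {σ R S : Type*} [CommSemiring R] [AddCommMonoid S]
    (G : (σ →₀ ℕ) → R →+ S) : MvPolynomial σ R →+ S :=
  (Finsupp.liftAddHom G).comp (AddMonoidAlgebra.coeffAddEquiv (R := R) (M := σ →₀ ℕ)).toAddMonoidHom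

lemma lin_monomial {σ R S : Type*} [CommSemiring R] [AddCommMonoid S]
    (G : (σ →₀ ℕ) → R →+ S) (n : σ →₀ ℕ) (r : R) : lin G (monomial n r) = G n r := by
  classical
  unfold lin
  simp only [AddMonoidHom.comp_apply]
  have : (AddMonoidAlgebra.coeffAddEquiv (R := R) (M := σ →₀ ℕ)).toAddMonoidHom (monomial n r)
      = Finsupp.single n r := rfl
  rw [this]
  simp

lemma qlin_of_monomial {σ R : Type*} [CommRing R] {p : ℕ} (hp : p.Prime) [CharP R p] (e : ℕ)
    (Ψ : MvPolynomial σ R →+ MvPolynomial σ R)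
    (h : ∀ (m n : σ →₀ ℕ) (x y : R), Ψ (monomial (p ^ e • m + n) (x ^ p ^ e * y)) =
      monomial m x * Ψ (monomial n y)) : QLin (p ^ e) Ψ := by
  have := Fact.mk hp
  intro a b
  induction a using MvPolynomial.induction_on' with
  | monomial m x =>
    induction b using MvPolynomial.induction_on' with
    | monomial n y =>
      rw [monomial_pow, monomial_mul, h]
    | add b b' hb hb' => rw [mul_add, map_add, hb, hb', map_add, mul_add]
  | add a a' ha ha' =>
    rw [add_pow_char_pow, add_mul, map_add, ha, ha', add_mul]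

section

variable {B : Type*} [CommRing B] {ρ : Type*} [Fintype ρ] [DecidableEq ρ]

/-- the polynomials -/
noncomputable def ff (M : Matrix ρ ρ B) (g : ρ → B) (j : ρ) : MvPolynomial ρ B :=
  ∑ P, C (M j P) * X P + C (g j)

/-- the numerators of the pivot variables -/
noncomputable def bb (M : Matrix ρ ρ B) (g : ρ → B) (P : ρ) : B := - ∑ j, M.adjugate P j * g j

/-- the ideal -/
noncomputable def II (M : Matrix ρ ρ B) (g : ρ → B) : Ideal (MvPolynomial ρ B) :=
  Ideal.span (Set.range (ff M g))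

/-- the ideal of the pivot relations -/
noncomputable def HH (M : Matrix ρ ρ B) (g : ρ → B) : Ideal (MvPolynomial ρ B) :=
  Ideal.span (Set.range fun P => C M.det * X P - C (bb M g P))

lemma piv_rel (M : Matrix ρ ρ B) (g : ρ → B) (P : ρ) :
    C M.det * X P - C (bb M g P) = ∑ j, C (M.adjugate P j) * ff M g j := by
  have h1 : ∀ Q, ∑ j, M.adjugate P j * M j Q = if P = Q then M.det else 0 := by
    intro Q
    have := congrFun (congrFun (Matrix.adjugate_mul M) P) Q
    rw [Matrix.mul_apply, Matrix.smul_apply, Matrix.one_apply] at this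
    rw [this]; split_ifs <;> simp
  calc C M.det * X P - C (bb M g P) =
      ∑ Q, C (∑ j, M.adjugate P j * M j Q) * X Q + C (∑ j, M.adjugate P j * g j) := by
        simp only [h1, bb, map_neg, sub_neg_eq_add]
        congr 1
        have h2 : ∑ x, C (if P = x then M.det else 0) * (X x : MvPolynomial ρ B) =
            C (if P = P then M.det else 0) * X P := by
          refine Finset.sum_eq_single P ?_ ?_
          · intro Q _ hQ; rw [if_neg (Ne.symm hQ)]; simp
          · simp
        rw [h2, if_pos rfl]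
    _ = _ := by
        simp only [ff, mul_add, Finset.sum_add_distrib, map_sum, map_mul, Finset.sum_mul,
          Finset.mul_sum]
        congr 1
        rw [Finset.sum_comm]
        exact Finset.sum_congr rfl fun j _ => Finset.sum_congr rfl fun Q _ => by ring

lemma HH_le (M : Matrix ρ ρ B) (g : ρ → B) : HH M g ≤ II M g := by
  rw [HH, Ideal.span_le]
  rintro _ ⟨P, rfl⟩
  simp only
  rw [piv_rel]
  exact Ideal.sum_mem _ fun j _ => Ideal.mul_mem_left _ _ (Ideal.subset_span ⟨j, rfl⟩)

lemma det_ff (M : Matrix ρ ρ B) (g : ρ → B) (j : ρ) : C M.det * ff M g j ∈ HH M g := by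
  have h1 : ∑ P, M j P * bb M g P = - (M.det * g j) := by
    have h2 : ∀ i, ∑ P, M j P * M.adjugate P i = if j = i then M.det else 0 := by
      intro i
      have := congrFun (congrFun (Matrix.mul_adjugate M) j) i
      rw [Matrix.mul_apply, Matrix.smul_apply, Matrix.one_apply] at this
      rw [this]; split_ifs <;> simp
    calc ∑ P, M j P * bb M g P = - ∑ i, (∑ P, M j P * M.adjugate P i) * g i := by
          simp only [bb, mul_neg, Finset.sum_neg_distrib, Finset.mul_sum, Finset.sum_mul]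
          rw [Finset.sum_comm]
          congr 1
          exact Finset.sum_congr rfl fun j _ => Finset.sum_congr rfl fun Q _ => by ring
      _ = _ := by simp [h2]
  have h3 : C M.det * ff M g j = ∑ P, C (M j P) * (C M.det * X P - C (bb M g P)) := by
    have h4 : ∑ P, C (M j P) * (C M.det * X P - C (bb M g P)) =
        ∑ P, C (M j P) * (C M.det * X P) - C (∑ P, M j P * bb M g P) := by
      simp only [mul_sub, Finset.sum_sub_distrib, map_sum, map_mul]
    rw [h4, h1, ff, map_neg, sub_neg_eq_add, mul_add, Finset.mul_sum, map_mul]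
    congr 1
    exact Finset.sum_congr rfl fun j _ => by ring
  rw [h3]
  exact Ideal.sum_mem _ fun P _ => Ideal.mul_mem_left _ _ (Ideal.subset_span ⟨P, rfl⟩)

lemma det_II (M : Matrix ρ ρ B) (g : ρ → B) {s : MvPolynomial ρ B} (hs : s ∈ II M g) :
    C M.det * s ∈ HH M g := by
  induction hs using Submodule.span_induction with
  | mem x hx => obtain ⟨j, rfl⟩ := hx; exact det_ff M g j
  | zero => simp
  | add x y _ _ h1 h2 => rw [mul_add]; exact Ideal.add_mem _ h1 h2
  | smul a x _ h1 => rw [smul_eq_mul, mul_left_comm]; exact Ideal.mul_mem_left _ _ h1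

lemma reduce (M : Matrix ρ ρ B) (g : ρ → B) (s : MvPolynomial ρ B) :
    ∃ (N : ℕ) (β : B), C (M.det ^ N) * s - C β ∈ HH M g := by
  induction s using MvPolynomial.induction_on with
  | C a => exact ⟨0, a, by simp⟩
  | add s t hs ht =>
    obtain ⟨N, β, h1⟩ := hs
    obtain ⟨N', β', h2⟩ := ht
    refine ⟨N + N', M.det ^ N' * β + M.det ^ N * β', ?_⟩
    have : C (M.det ^ (N + N')) * (s + t) - C (M.det ^ N' * β + M.det ^ N * β') =
        C (M.det ^ N') * (C (M.det ^ N) * s - C β) + C (M.det ^ N) * (C (M.det ^ N') * t - C β') := by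
      simp only [pow_add, map_mul, map_add]; ring
    rw [this]
    exact Ideal.add_mem _ (Ideal.mul_mem_left _ _ h1) (Ideal.mul_mem_left _ _ h2)
  | mul_X s P hs =>
    obtain ⟨N, β, h1⟩ := hs
    refine ⟨N + 1, β * bb M g P, ?_⟩
    have : C (M.det ^ (N + 1)) * (s * X P) - C (β * bb M g P) =
        (C M.det * X P) * (C (M.det ^ N) * s - C β) + C β * (C M.det * X P - C (bb M g P)) := by
      simp only [pow_succ, map_mul]; ring
    rw [this]
    exact Ideal.add_mem _ (Ideal.mul_mem_left _ _ h1)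
      (Ideal.mul_mem_left _ _ (Ideal.subset_span ⟨P, rfl⟩))

lemma C_mem_HH [IsDomain B] (M : Matrix ρ ρ B) (g : ρ → B) (hc : M.det ≠ 0) {β : B}
    (h : C β ∈ HH M g) : β = 0 := by
  set θ : MvPolynomial ρ B →+* FractionRing B :=
    eval₂Hom (algebraMap B (FractionRing B)) fun P =>
      algebraMap B (FractionRing B) (bb M g P) / algebraMap B (FractionRing B) M.det with hθ
  have hinj : Function.Injective (algebraMap B (FractionRing B)) :=
    IsFractionRing.injective B (FractionRing B)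
  have hd : algebraMap B (FractionRing B) M.det ≠ 0 := by
    intro h0; exact hc (hinj (by rw [h0, map_zero]))
  have h1 : HH M g ≤ RingHom.ker θ := by
    rw [HH, Ideal.span_le]
    rintro _ ⟨P, rfl⟩
    simp only [SetLike.mem_coe, RingHom.mem_ker, hθ, map_sub, map_mul, coe_eval₂Hom, eval₂_C,
      eval₂_X]
    rw [mul_div_cancel₀ _ hd]
    simp
  have h2 := h1 h
  rw [RingHom.mem_ker, hθ, coe_eval₂Hom, eval₂_C] at h2
  exact hinj (by rw [h2, map_zero])

lemma C_mem_II [IsDomain B] (M : Matrix ρ ρ B) (g : ρ → B) (hc : M.det ≠ 0) {β : B}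
    (h : C β ∈ II M g) : β = 0 := by
  have h1 := det_II M g h
  rw [← map_mul] at h1
  exact (mul_eq_zero.1 (C_mem_HH M g hc h1)).resolve_left hc

/-- exponents divided by `q`, rounded down -/
noncomputable def dv {σ : Type*} (q : ℕ) (n : σ →₀ ℕ) : σ →₀ ℕ := n.mapRange (· / q) (Nat.zero_div q)

lemma dv_apply {σ : Type*} (q : ℕ) (n : σ →₀ ℕ) (v : σ) : dv q n v = n v / q := rfl

lemma dv_add {σ : Type*} {q : ℕ} (hq : 0 < q) (m n : σ →₀ ℕ) : dv q (q • m + n) = m + dv q n := by
  ext v
  simp only [dv_apply, Finsupp.add_apply, Finsupp.smul_apply, smul_eq_mul]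
  rw [Nat.add_comm, Nat.add_mul_div_left _ _ hq, Nat.add_comm]

/-- the multiplier of the lift -/
noncomputable def wt (M : Matrix ρ ρ B) (g : ρ → B) (q : ℕ) (n : ρ →₀ ℕ) : B :=
  (∏ P, bb M g P ^ (n P % q)) * M.det ^ (Fintype.card ρ * q - ∑ P, n P % q)

/-- the lift of a `p^(-e)`-linear map of `B` -/
noncomputable def lft (M : Matrix ρ ρ B) (g : ρ → B) (q : ℕ) (φ : B →+ B) :
    MvPolynomial ρ B →+ MvPolynomial ρ B :=
  lin fun n => ((monomial (dv q n)).toAddMonoidHom.comp
    (φ.comp (AddMonoidHom.mulRight (wt M g q n))))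

lemma lft_monomial (M : Matrix ρ ρ B) (g : ρ → B) (q : ℕ) (φ : B →+ B) (n : ρ →₀ ℕ) (x : B) :
    lft M g q φ (monomial n x) = monomial (dv q n) (φ (x * wt M g q n)) := by
  rw [lft, lin_monomial]; rfl

lemma lft_qlin {p : ℕ} (hp : p.Prime) [CharP B p] (M : Matrix ρ ρ B) (g : ρ → B) (e : ℕ)
    (φ : B →+ B) (hφ : QLin (p ^ e) φ) : QLin (p ^ e) (lft M g (p ^ e) φ) := by
  refine qlin_of_monomial hp e _ fun m n x y => ?_
  have hq : 0 < p ^ e := Nat.pow_pos hp.pos
  rw [lft_monomial, lft_monomial, dv_add hq, monomial_mul]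
  congr 1
  have h1 : wt M g (p ^ e) (p ^ e • m + n) = wt M g (p ^ e) n := by
    have : ∀ P, (p ^ e • m + n) P % p ^ e = n P % p ^ e := by
      intro P
      simp only [Finsupp.add_apply, Finsupp.smul_apply, smul_eq_mul]
      rw [Nat.add_comm, Nat.add_mul_mod_self_left]
    simp only [wt, this]
  rw [h1, mul_assoc, hφ]

lemma lft_C (M : Matrix ρ ρ B) (g : ρ → B) {q : ℕ} (φ : B →+ B) (hφ : QLin q φ) (β : B) :
    lft M g q φ (C β) = C (M.det ^ Fintype.card ρ * φ β) := by
  have : (C β : MvPolynomial ρ B) = monomial 0 β := rfl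
  rw [this, lft_monomial]
  have h1 : dv q (0 : ρ →₀ ℕ) = 0 := by ext v; simp [dv_apply]
  have h2 : β * wt M g q 0 = (M.det ^ Fintype.card ρ) ^ q * β := by
    simp only [wt, Finsupp.coe_zero, Pi.zero_apply, Nat.zero_mod, pow_zero, Finset.prod_const_one,
      one_mul, Finset.sum_const_zero, Nat.sub_zero, pow_mul]
    ring
  rw [h1, h2, hφ]
  rfl

lemma lft_rel (M : Matrix ρ ρ B) (g : ρ → B) {q : ℕ} (hq : 0 < q) (φ : B →+ B)
    (hφ : QLin q φ) (P : ρ) (n : ρ →₀ ℕ) (x : B) :
    lft M g q φ (monomial n x * (C M.det * X P - C (bb M g P))) ∈ HH M g := by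
  classical
  have e1 : monomial n x * (C M.det * X P - C (bb M g P)) =
      monomial (n + Finsupp.single P 1) (x * M.det) - monomial n (x * bb M g P) := by
    rw [mul_sub, ← mul_assoc, mul_comm (monomial n x) (C M.det), C_mul_monomial,
      mul_comm (monomial n x) (C (bb M g P)), C_mul_monomial, X, monomial_mul, mul_one,
      mul_comm M.det, mul_comm (bb M g P)]
  rw [e1, map_sub, lft_monomial, lft_monomial]
  set W : B := ∏ Q ∈ Finset.univ.erase P, bb M g Q ^ (n Q % q) with hW
  set S : ℕ := ∑ Q ∈ Finset.univ.erase P, n Q % q with hS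
  have hSle : S + q ≤ Fintype.card ρ * q := by
    have h1 : S ≤ (Finset.univ.erase P).card * q := by
      rw [hS, ← smul_eq_mul]
      exact Finset.sum_le_card_nsmul _ _ _ fun Q _ => (Nat.mod_lt _ hq).le
    rw [Finset.card_erase_of_mem (Finset.mem_univ _), Finset.card_univ] at h1
    have h2 : 1 ≤ Fintype.card ρ := Fintype.card_pos_iff.2 ⟨P⟩
    calc S + q ≤ (Fintype.card ρ - 1) * q + 1 * q := by omega
      _ = Fintype.card ρ * q := by rw [← Nat.add_mul, Nat.sub_add_cancel h2]
  set K := Fintype.card ρ * q with hK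
  have hwt : ∀ m : ρ →₀ ℕ, (∀ Q, Q ≠ P → m Q % q = n Q % q) →
      wt M g q m = bb M g P ^ (m P % q) * W * M.det ^ (K - (m P % q + S)) := by
    intro m hm
    have h1 : ∏ Q, bb M g Q ^ (m Q % q) = bb M g P ^ (m P % q) * W := by
      rw [← Finset.mul_prod_erase _ _ (Finset.mem_univ P), hW]
      congr 1
      exact Finset.prod_congr rfl fun Q hQ => by rw [hm Q (Finset.ne_of_mem_erase hQ)]
    have h2 : ∑ Q, m Q % q = m P % q + S := by
      rw [← Finset.add_sum_erase _ _ (Finset.mem_univ P), hS]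
      congr 1
      exact Finset.sum_congr rfl fun Q hQ => by rw [hm Q (Finset.ne_of_mem_erase hQ)]
    rw [wt, h1, h2]
  have hn' : ∀ Q, Q ≠ P → (n + Finsupp.single P 1 : ρ →₀ ℕ) Q = n Q := by
    intro Q hQ; simp [Finsupp.single_apply, Ne.symm hQ]
  have hnP : (n + Finsupp.single P 1 : ρ →₀ ℕ) P = n P + 1 := by simp
  rw [hwt n (fun _ _ => rfl), hwt (n + Finsupp.single P 1) (fun Q hQ => by rw [hn' Q hQ]), hnP]
  have hmod := Nat.mod_lt (n P) hq
  by_cases ht : n P % q + 1 < q
  · have h1 : (n P + 1) % q = n P % q + 1 := by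
      rw [Nat.add_mod, Nat.mod_eq_of_lt (a := 1) (by omega), Nat.mod_eq_of_lt ht]
    have h2 : dv q (n + Finsupp.single P 1) = dv q n := by
      ext Q
      simp only [dv_apply]
      by_cases hQ : Q = P
      · subst hQ
        rw [hnP]
        have h3 := Nat.div_add_mod (n Q) q
        have h4 := Nat.div_add_mod (n Q + 1) q
        rw [h1] at h4
        have h5 : q * ((n Q + 1) / q) = q * (n Q / q) := by omega
        exact Nat.eq_of_mul_eq_mul_left hq h5
      · rw [hn' Q hQ]
    rw [h1, h2]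
    have h3 : x * M.det * (bb M g P ^ (n P % q + 1) * W * M.det ^ (K - (n P % q + 1 + S))) =
        x * bb M g P * (bb M g P ^ (n P % q) * W * M.det ^ (K - (n P % q + S))) := by
      have h4 : K - (n P % q + S) = (K - (n P % q + 1 + S)) + 1 := by omega
      rw [h4, pow_succ, pow_succ]; ring
    rw [h3, sub_self]
    exact Ideal.zero_mem _
  · have ht' : n P % q = q - 1 := by omega
    have hd3 := Nat.div_add_mod (n P) q
    have h1 : (n P + 1) % q = 0 := by
      have : n P + 1 = q * (n P / q + 1) := by rw [Nat.mul_add, mul_one]; omega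
      rw [this]; exact Nat.mul_mod_right _ _
    have h2 : dv q (n + Finsupp.single P 1) = dv q n + Finsupp.single P 1 := by
      ext Q
      simp only [dv_apply, Finsupp.add_apply]
      by_cases hQ : Q = P
      · subst hQ
        rw [Finsupp.single_eq_same]
        have : n Q + 1 = q * (n Q / q + 1) := by rw [Nat.mul_add, mul_one]; omega
        rw [this]; exact Nat.mul_div_cancel_left _ hq
      · rw [Finsupp.single_eq_of_ne hQ, add_zero, add_zero]
    rw [h1, h2, ht', pow_zero, one_mul, zero_add]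
    set K1 := K - (q - 1 + S) with hK1
    have e2 : x * M.det * (W * M.det ^ (K - S)) = M.det ^ q * (x * W * M.det ^ K1) := by
      have h4 : K - S + 1 = q + K1 := by omega
      calc x * M.det * (W * M.det ^ (K - S)) = x * W * M.det ^ (K - S + 1) := by
            rw [pow_succ]; ring
        _ = _ := by rw [h4, pow_add]; ring
    have e3 : x * bb M g P * (bb M g P ^ (q - 1) * W * M.det ^ K1) =
        bb M g P ^ q * (x * W * M.det ^ K1) := by
      have h4 : q = (q - 1) + 1 := by omega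
      conv_rhs => rw [h4, pow_succ]
      ring
    rw [e2, e3, hφ, hφ]
    have e4 : (monomial (dv q n + Finsupp.single P 1)) (M.det * φ (x * W * M.det ^ K1)) -
        (monomial (dv q n)) (bb M g P * φ (x * W * M.det ^ K1)) =
        monomial (dv q n) (φ (x * W * M.det ^ K1)) * (C M.det * X P - C (bb M g P)) := by
      rw [mul_sub, ← mul_assoc, mul_comm (monomial _ _) (C M.det), C_mul_monomial,
        mul_comm (monomial _ _) (C (bb M g P)), C_mul_monomial, X, monomial_mul, mul_one]
    rw [e4]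
    exact Ideal.mul_mem_left _ _ (Ideal.subset_span ⟨P, rfl⟩)

lemma lft_HH (M : Matrix ρ ρ B) (g : ρ → B) {q : ℕ} (hq : 0 < q) (φ : B →+ B)
    (hφ : QLin q φ) {s : MvPolynomial ρ B} (hs : s ∈ HH M g) : lft M g q φ s ∈ HH M g := by
  suffices H : ∀ t : MvPolynomial ρ B, lft M g q φ (t * s) ∈ HH M g by simpa using H 1
  induction hs using Submodule.span_induction with
  | mem x hx =>
    obtain ⟨P, rfl⟩ := hx
    intro t
    induction t using MvPolynomial.induction_on' with
    | monomial n x => exact lft_rel M g hq φ hφ P n x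
    | add a b ha hb => rw [add_mul, map_add]; exact Ideal.add_mem _ ha hb
  | zero => intro t; simp
  | add x y _ _ h1 h2 => intro t; rw [mul_add, map_add]; exact Ideal.add_mem _ (h1 t) (h2 t)
  | smul a x _ h1 => intro t; rw [smul_eq_mul, ← mul_assoc]; exact h1 _

lemma trace_II (M : Matrix ρ ρ B) (g : ρ → B) {q : ℕ} (hq : 0 < q)
    (ψ : MvPolynomial ρ B →+ MvPolynomial ρ B) (hψ : QLin q ψ) {s : MvPolynomial ρ B}
    (hs : s ∈ II M g) : ψ ((∏ j, ff M g j) ^ (q - 1) * s) ∈ II M g := by
  suffices H : ∀ t : MvPolynomial ρ B, ψ ((∏ j, ff M g j) ^ (q - 1) * (t * s)) ∈ II M g by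
    simpa using H 1
  induction hs using Submodule.span_induction with
  | mem x hx =>
    obtain ⟨j, rfl⟩ := hx
    intro t
    have : (∏ j, ff M g j) ^ (q - 1) * (t * ff M g j) =
        ff M g j ^ q * ((∏ i ∈ Finset.univ.erase j, ff M g i) ^ (q - 1) * t) := by
      rw [← Finset.mul_prod_erase _ _ (Finset.mem_univ j), mul_pow]
      have h4 : q = (q - 1) + 1 := by omega
      conv_rhs => rw [h4, pow_succ]
      rw [← h4]; ring
    rw [this, hψ]
    exact Ideal.mul_mem_right _ _ (Ideal.subset_span ⟨j, rfl⟩)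
  | zero => intro t; simp
  | add x y _ _ h1 h2 =>
    intro t; rw [mul_add, mul_add, map_add]; exact Ideal.add_mem _ (h1 t) (h2 t)
  | smul a x _ h1 => intro t; rw [smul_eq_mul, ← mul_assoc t]; exact h1 _

/-- **The quotient is a domain which is split along every nonzero element.** -/
theorem piv_main [IsDomain B] {p : ℕ} (hp : p.Prime) [CharP B p] (M : Matrix ρ ρ B) (g : ρ → B)
    (hc : M.det ≠ 0)
    (hB : ∀ b : B, b ≠ 0 → ∃ (e : ℕ) (φ : B →+ B), QLin (p ^ e) φ ∧ φ b = 1)
    (hS : ∀ m E0 : ℕ, ∃ e : ℕ, E0 ≤ e ∧ ∃ ψ : MvPolynomial ρ B →+ MvPolynomial ρ B,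
      QLin (p ^ e) ψ ∧ ψ ((∏ j, ff M g j) ^ (p ^ e - 1) * C (M.det ^ m)) = 1) :
    IsDomain (MvPolynomial ρ B ⧸ II M g) ∧ Split (MvPolynomial ρ B ⧸ II M g) p := by
  have hq : ∀ e, 0 < p ^ e := fun e => Nat.pow_pos hp.pos
  -- powers of `det` are nonzerodivisors
  have hnz : ∀ (N : ℕ) (t : MvPolynomial ρ B), C (M.det ^ N) * t ∈ II M g → t ∈ II M g := by
    intro N t ht
    obtain ⟨e, -, ψ, hψ, h1⟩ := hS N 0
    have h2 := trace_II M g (hq e) ψ hψ (Ideal.mul_mem_left _ (t ^ (p ^ e - 1)) ht)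
    have h3 : (∏ j, ff M g j) ^ (p ^ e - 1) * (t ^ (p ^ e - 1) * (C (M.det ^ N) * t)) =
        t ^ p ^ e * ((∏ j, ff M g j) ^ (p ^ e - 1) * C (M.det ^ N)) := by
      have h4 : p ^ e = (p ^ e - 1) + 1 := by have := hq e; omega
      conv_rhs => rw [h4, pow_succ]
      rw [← h4]; ring
    rw [h3, hψ, h1, mul_one] at h2
    exact h2
  have hred : ∀ s : MvPolynomial ρ B, ∃ (N : ℕ) (β : B), C (M.det ^ N) * s - C β ∈ HH M g :=
    reduce M g
  have hprime : (II M g).IsPrime := by
    refine ⟨?_, ?_⟩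
    · intro htop
      have h1 : (C (1 : B) : MvPolynomial ρ B) ∈ II M g := by rw [htop]; trivial
      exact one_ne_zero (C_mem_II M g hc h1)
    · intro s t hst
      obtain ⟨N, β, h1⟩ := hred s
      obtain ⟨N', β', h2⟩ := hred t
      have h1' := HH_le M g h1
      have h2' := HH_le M g h2
      have h3 : C (β * β') ∈ II M g := by
        have : (C (β * β') : MvPolynomial ρ B) = C (M.det ^ N) * C (M.det ^ N') * (s * t) -
            (C (M.det ^ N) * s - C β) * (C (M.det ^ N') * t) -
            C β * (C (M.det ^ N') * t - C β') := by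
          rw [map_mul]; ring
        rw [this]
        exact Ideal.sub_mem _ (Ideal.sub_mem _ (Ideal.mul_mem_left _ _ hst)
          (Ideal.mul_mem_right _ _ h1')) (Ideal.mul_mem_left _ _ h2')
      rcases mul_eq_zero.1 (C_mem_II M g hc h3) with h0 | h0
      · left
        rw [h0, map_zero, sub_zero] at h1'
        exact hnz N s h1'
      · right
        rw [h0, map_zero, sub_zero] at h2'
        exact hnz N' t h2'
  have hdom : IsDomain (MvPolynomial ρ B ⧸ II M g) := (Ideal.Quotient.isDomain_iff_prime _).2 hprime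
  refine ⟨hdom, fun c' hc' E0 => ?_⟩
  obtain ⟨s, rfl⟩ := Ideal.Quotient.mk_surjective c'
  have hs : s ∉ II M g := fun h => hc' (Ideal.Quotient.eq_zero_iff_mem.2 h)
  obtain ⟨N, β, h1⟩ := hred s
  have hβ : β ≠ 0 := by
    rintro rfl
    rw [map_zero, sub_zero] at h1
    exact hs (hnz N s (HH_le M g h1))
  obtain ⟨e', φ, hφ, hφβ⟩ := hB β hβ
  obtain ⟨e, he, ψ, hψ, h2⟩ := hS (Fintype.card ρ) E0
  set L := lft M g (p ^ e') φ with hL
  have hLq : QLin (p ^ e') L := lft_qlin hp M g e' φ hφ
  have hLI : ∀ x ∈ II M g, L x ∈ II M g := by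
    intro x hx
    refine hnz 1 _ ?_
    have h3 : C (M.det ^ 1) * L x = L ((C (M.det ^ 1)) ^ p ^ e' * x) := (hLq _ _).symm
    rw [h3]
    have h4 : (C (M.det ^ 1)) ^ p ^ e' * x = (C M.det) ^ (p ^ e' - 1) * (C M.det * x) := by
      have h5 : p ^ e' = (p ^ e' - 1) + 1 := by have := hq e'; omega
      rw [pow_one]
      conv_lhs => rw [h5, pow_succ]
      ring
    rw [h4]
    exact HH_le M g (lft_HH M g (hq e') φ hφ (Ideal.mul_mem_left _ _ (det_II M g hx)))
  set T : MvPolynomial ρ B →+ MvPolynomial ρ B :=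
    ψ.comp ((AddMonoidHom.mulLeft ((∏ j, ff M g j) ^ (p ^ e - 1))).comp
      (L.comp (AddMonoidHom.mulLeft (C (M.det ^ N))))) with hT
  have hTa : ∀ x, T x = ψ ((∏ j, ff M g j) ^ (p ^ e - 1) * L (C (M.det ^ N) * x)) := fun x => rfl
  have hTI : ∀ x ∈ II M g, T x ∈ II M g := fun x hx => by
    rw [hTa]
    exact trace_II M g (hq e) ψ hψ (hLI _ (Ideal.mul_mem_left _ _ hx))
  have hTq : QLin (p ^ (e + e')) T := by
    intro a b
    rw [hTa, hTa]
    have h3 : C (M.det ^ N) * (a ^ p ^ (e + e') * b) =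
        (a ^ p ^ e) ^ p ^ e' * (C (M.det ^ N) * b) := by
      rw [← pow_mul, ← pow_add]; ring
    rw [h3, hLq, mul_left_comm, hψ]
  have hTs : T s - 1 ∈ II M g := by
    have h3 : C (M.det ^ N) * s = C β + (C (M.det ^ N) * s - C β) := by ring
    rw [hTa, h3, map_add, hL, lft_C M g φ hφ, hφβ, mul_one, mul_add, map_add, h2, add_sub_cancel_left]
    exact trace_II M g (hq e) ψ hψ (hLI _ (HH_le M g h1))
  set Ψ : (MvPolynomial ρ B ⧸ II M g) →+ (MvPolynomial ρ B ⧸ II M g) :=
    QuotientAddGroup.map (II M g).toAddSubgroup (II M g).toAddSubgroup T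
      (fun x hx => hTI x hx) with hΨ
  have hΨa : ∀ x, Ψ (Ideal.Quotient.mk _ x) = Ideal.Quotient.mk _ (T x) := fun x => rfl
  refine ⟨e + e', by omega, Ψ, fun a b => ?_, ?_⟩
  · obtain ⟨a, rfl⟩ := Ideal.Quotient.mk_surjective a
    obtain ⟨b, rfl⟩ := Ideal.Quotient.mk_surjective b
    rw [← map_pow, ← map_mul, hΨa, hΨa, hTq, map_mul]
  · rw [hΨa, ← map_one (Ideal.Quotient.mk (II M g)), ← sub_eq_zero, ← map_sub]
    exact Ideal.Quotient.eq_zero_iff_mem.2 hTs

end

end Pool.Agent.K4H49.FR
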