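import Pool.Agent.K4H49.FR.All

/-!
# The ideals of the diagonal and antidiagonal entries of the commutator
-/

set_option autoImplicit false

namespace Pool.Agent.K4H49.FR

open MvPolynomial

universe u

/-- the polynomial ring `K[X, Y]`; the variable `inl (i, j)` is `x i j` and `inr (i, j)` is `y i j` -/
abbrev PR (K : Type u) [Field K] (n : ℕ) : Type u :=
  MvPolynomial ((Fin n × Fin n) ⊕ (Fin n × Fin n)) K

/-- the generic matrix `X` -/
noncomputable def XM (K : Type u) [Field K] (n : ℕ) : Matrix (Fin n) (Fin n) (PR K n) :=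
  fun i j => X (Sum.inl (i, j))

/-- the generic matrix `Y` -/
noncomputable def YM (K : Type u) [Field K] (n : ℕ) : Matrix (Fin n) (Fin n) (PR K n) :=
  fun i j => X (Sum.inr (i, j))

/-- the commutator matrix `C = X Y - Y X` -/
noncomputable def CM (K : Type u) [Field K] (n : ℕ) : Matrix (Fin n) (Fin n) (PR K n) :=
  XM K n * YM K n - YM K n * XM K n

/-- the ideal `I` generated by the diagonal entries of `C` -/
noncomputable def diagIdeal (K : Type u) [Field K] (n : ℕ) : Ideal (PR K n) :=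
  Ideal.span (Set.range fun i => CM K n i i)

/-- the ideal `J` generated by the antidiagonal entries of `C` -/
noncomputable def antiIdeal (K : Type u) [Field K] (n : ℕ) : Ideal (PR K n) :=
  Ideal.span (Set.range fun i => CM K n i (Fin.rev i))

lemma CM_eq (K : Type u) [Field K] (n : ℕ) (i j : Fin n) : CM K n i j = cc K (i, j) := by
  simp only [CM, Matrix.sub_apply, Matrix.mul_apply, XM, YM, cc, Finset.sum_sub_distrib]
  congr 1
  exact Finset.sum_congr rfl fun k _ => mul_comm _ _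

lemma antiIdeal_eq (K : Type u) [Field K] (n : ℕ) :
    antiIdeal K n = Ideal.span (cc K '' {f : Fin n × Fin n | f.2 = Fin.rev f.1}) := by
  unfold antiIdeal
  congr 1
  ext g
  constructor
  · rintro ⟨i, rfl⟩
    exact ⟨(i, Fin.rev i), rfl, (CM_eq K n _ _).symm⟩
  · rintro ⟨⟨i, j⟩, hf, rfl⟩
    refine ⟨i, ?_⟩
    simp only [Set.mem_setOf_eq] at hf
    simp only [CM_eq, hf]

lemma sum_eq (K : Type u) [Field K] (n : ℕ) : diagIdeal K n ⊔ antiIdeal K n =
    Ideal.span (cc K '' {f : Fin n × Fin n | f.2 = f.1 ∨ f.2 = Fin.rev f.1}) := by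
  unfold diagIdeal antiIdeal
  rw [← Ideal.span_union]
  congr 1
  ext g
  constructor
  · rintro (⟨i, rfl⟩ | ⟨i, rfl⟩)
    · exact ⟨(i, i), Or.inl rfl, (CM_eq K n _ _).symm⟩
    · exact ⟨(i, Fin.rev i), Or.inr rfl, (CM_eq K n _ _).symm⟩
  · rintro ⟨⟨i, j⟩, hf, rfl⟩
    simp only [Set.mem_setOf_eq] at hf
    rcases hf with hf | hf
    · exact Or.inl ⟨i, by simp only [CM_eq, hf]⟩
    · exact Or.inr ⟨i, by simp only [CM_eq, hf]⟩

theorem final (n : ℕ) (hn : 3 ≤ n) (K : Type u) [Field K] (p : ℕ) (hp : p.Prime) [CharP K p] :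
    (FRegular (PR K n ⧸ (diagIdeal K n ⊔ antiIdeal K n)) p ∧
      IsDomain (PR K n ⧸ (diagIdeal K n ⊔ antiIdeal K n))) ∧
    (FRegular (PR K n ⧸ antiIdeal K n) p ∧ IsDomain (PR K n ⧸ antiIdeal K n)) := by
  rw [sum_eq, antiIdeal_eq]
  obtain ⟨h1, h2⟩ := I_main K hp n hn
  obtain ⟨h3, h4⟩ := J_main K hp n hn
  exact ⟨⟨fRegular_of_split hp h2, h1⟩, ⟨fRegular_of_split hp h4, h3⟩⟩

end Pool.Agent.K4H49.FR
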