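import Mathlib

/-!
# Tight closure and rings that are split along every nonzero element
-/

namespace Pool.Agent.K4H49.FR

universe u

section defs

variable {A : Type u} [CommRing A]

/-- the ideal generated by the `q`-th powers of the elements of `𝔞` -/
def frobPow (𝔞 : Ideal A) (q : ℕ) : Ideal A := Ideal.span ((fun a => a ^ q) '' (𝔞 : Set A))

/-- the tight closure of `𝔞` -/
def tightClosure (p : ℕ) (𝔞 : Ideal A) : Set A :=
  {z | ∃ c : A, (∀ P ∈ minimalPrimes A, c ∉ P) ∧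
    ∃ N : ℕ, ∀ e : ℕ, N ≤ e → c * z ^ p ^ e ∈ frobPow 𝔞 (p ^ e)}

end defs

/-- every ideal is tightly closed -/
def WeaklyFRegular (A : Type u) [CommRing A] (p : ℕ) : Prop :=
  ∀ 𝔞 : Ideal A, tightClosure p 𝔞 = (𝔞 : Set A)

/-- every localization is weakly F-regular -/
def FRegular (A : Type u) [CommRing A] (p : ℕ) : Prop :=
  ∀ W : Submonoid A, WeaklyFRegular (Localization W) p

/-- for every nonzero `c` there are arbitrarily large `E` and `p^(-E)`-linear maps with value `1` at `c` -/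
def Split (A : Type u) [CommRing A] (p : ℕ) : Prop :=
  ∀ c : A, c ≠ 0 → ∀ E0 : ℕ, ∃ E : ℕ, E0 ≤ E ∧ ∃ Ψ : A →+ A,
    (∀ a b : A, Ψ (a ^ p ^ E * b) = a * Ψ b) ∧ Ψ c = 1

lemma map_frobPow {A : Type u} [CommRing A] {q : ℕ} (Ψ : A →+ A)
    (h : ∀ a b : A, Ψ (a ^ q * b) = a * Ψ b) (𝔞 : Ideal A) {x : A} (hx : x ∈ frobPow 𝔞 q) :
    Ψ x ∈ 𝔞 := by
  suffices H : ∀ r : A, Ψ (r * x) ∈ 𝔞 by simpa using H 1
  refine Submodule.span_induction (p := fun x _ => ∀ r : A, Ψ (r * x) ∈ 𝔞) ?_ ?_ ?_ ?_ hx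
  · rintro _ ⟨a, ha, rfl⟩ r
    simp only
    rw [mul_comm, h]
    exact 𝔞.mul_mem_right _ ha
  · intro r; simp
  · intro x y _ _ h1 h2 r
    rw [mul_add, map_add]
    exact 𝔞.add_mem (h1 r) (h2 r)
  · intro a x _ h1 r
    rw [smul_eq_mul, ← mul_assoc]
    exact h1 _

lemma subset_tightClosure {A : Type u} [CommRing A] (p : ℕ) (𝔞 : Ideal A) :
    (𝔞 : Set A) ⊆ tightClosure p 𝔞 := by
  intro z hz
  refine ⟨1, fun P hP h1 => ?_, 0, fun e _ => ?_⟩
  · exact (Ideal.IsMinimalPrime.isPrime hP).ne_top ((Ideal.eq_top_iff_one _).2 h1)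
  · rw [one_mul]
    exact Ideal.subset_span ⟨z, hz, rfl⟩

theorem fRegular_of_split {A : Type u} [CommRing A] [IsDomain A] {p : ℕ} (hp : p.Prime)
    (h : Split A p) : FRegular A p := by
  intro W 𝔟
  by_cases h0 : (0 : A) ∈ W
  · have : Subsingleton (Localization W) := IsLocalization.subsingleton (M := W) h0
    refine Set.Subset.antisymm (fun z _ => ?_) (subset_tightClosure p 𝔟)
    have : z = 0 := Subsingleton.elim _ _
    rw [this]; exact 𝔟.zero_mem
  have hW : W ≤ nonZeroDivisors A := le_nonZeroDivisors_of_noZeroDivisors h0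
  have : IsDomain (Localization W) := IsLocalization.isDomain_localization hW
  refine Set.Subset.antisymm (fun z hz => ?_) (subset_tightClosure p 𝔟)
  obtain ⟨c, hc, N, hN⟩ := hz
  have hc0 : c ≠ 0 := by
    rintro rfl
    have : (⊥ : Ideal (Localization W)) ∈ minimalPrimes (Localization W) := by
      rw [IsDomain.minimalPrimes_eq_singleton_bot]; rfl
    exact hc _ this (Submodule.zero_mem _)
  obtain ⟨⟨c1, w1⟩, hc1⟩ := IsLocalization.surj W c
  obtain ⟨⟨a, w⟩, ha⟩ := IsLocalization.surj W z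
  simp only at hc1 ha
  have hinj := IsLocalization.injective (Localization W) hW
  have hc10 : c1 ≠ 0 := by
    rintro rfl
    rw [map_zero] at hc1
    rcases mul_eq_zero.1 hc1 with h | h
    · exact hc0 h
    · exact (nonZeroDivisors.ne_zero (hW w1.2)) (hinj (by rw [h, map_zero]))
  obtain ⟨E, hE, Ψ, hΨ, hΨc⟩ := h c1 hc10 N
  set 𝔞 := 𝔟.comap (algebraMap A (Localization W)) with h𝔞
  have h1 : algebraMap A (Localization W) (c1 * a ^ p ^ E) ∈
      (frobPow 𝔞 (p ^ E)).map (algebraMap A (Localization W)) := by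
    have h2 : frobPow 𝔟 (p ^ E) ≤ (frobPow 𝔞 (p ^ E)).map (algebraMap A (Localization W)) := by
      rw [frobPow, Ideal.span_le]
      rintro _ ⟨b, hb, rfl⟩
      obtain ⟨⟨b1, v⟩, hb1⟩ := IsLocalization.surj W b
      simp only at hb1 ⊢
      have hb1' : b1 ∈ 𝔞 := by
        rw [h𝔞, Ideal.mem_comap, ← hb1]
        exact 𝔟.mul_mem_right _ hb
      have h3 : (algebraMap A (Localization W) (v : A)) ^ p ^ E * b ^ p ^ E ∈
          (frobPow 𝔞 (p ^ E)).map (algebraMap A (Localization W)) := by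
        rw [← mul_pow, mul_comm, hb1, ← map_pow]
        exact Ideal.mem_map_of_mem _ (Ideal.subset_span ⟨b1, hb1', rfl⟩)
      have hu : IsUnit ((algebraMap A (Localization W) (v : A)) ^ p ^ E) :=
        (IsLocalization.map_units (Localization W) v).pow _
      exact (Ideal.unit_mul_mem_iff_mem _ hu).1 h3
    have h4 := h2 (hN E hE)
    have h5 : algebraMap A (Localization W) (c1 * a ^ p ^ E) =
        (algebraMap A (Localization W) w1 * (algebraMap A (Localization W) w) ^ p ^ E) *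
          (c * z ^ p ^ E) := by
      rw [map_mul, map_pow, ← hc1, ← ha]; ring
    rw [h5]
    exact Ideal.mul_mem_left _ _ h4
  rw [IsLocalization.algebraMap_mem_map_algebraMap_iff W] at h1
  obtain ⟨v, hv, hv1⟩ := h1
  have hv2 : v ^ p ^ E * (c1 * a ^ p ^ E) ∈ frobPow 𝔞 (p ^ E) := by
    have hpe : p ^ E = (p ^ E - 1) + 1 := (Nat.sub_add_cancel (Nat.one_le_pow _ _ hp.pos)).symm
    have : v ^ p ^ E * (c1 * a ^ p ^ E) = v ^ (p ^ E - 1) * (v * (c1 * a ^ p ^ E)) := by
      conv_lhs => rw [hpe]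
      rw [pow_succ, ← hpe]; ring
    rw [this]
    exact Ideal.mul_mem_left _ _ hv1
  have h6 := map_frobPow Ψ hΨ 𝔞 hv2
  have h7 : Ψ (v ^ p ^ E * (c1 * a ^ p ^ E)) = v * a := by
    rw [hΨ, mul_comm c1, hΨ, hΨc, mul_one]
  rw [h7, h𝔞, Ideal.mem_comap, map_mul] at h6
  have h8 : algebraMap A (Localization W) a ∈ 𝔟 :=
    (Ideal.unit_mul_mem_iff_mem _ (IsLocalization.map_units (Localization W) ⟨v, hv⟩)).1 h6
  rw [← ha] at h8
  exact (Ideal.mul_unit_mem_iff_mem _ (IsLocalization.map_units (Localization W) w)).1 h8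

lemma Split.of_ringEquiv {A B : Type*} [CommRing A] [CommRing B] {p : ℕ} (e : A ≃+* B)
    (h : Split A p) : Split B p := by
  intro c hc E0
  obtain ⟨E, hE, Ψ, hΨ, hc1⟩ := h (e.symm c) (by simpa using hc) E0
  refine ⟨E, hE, (e.toAddEquiv.toAddMonoidHom.comp Ψ).comp e.symm.toAddEquiv.toAddMonoidHom,
    fun a b => ?_, ?_⟩
  · simp [hΨ]
  · simp [hc1]

end Pool.Agent.K4H49.FR
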