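import Pool.Agent.K4H49.FR.Coord

/-!
# Weights and top parts
-/

namespace Pool.Agent.K4H49.FR

open MvPolynomial

section

variable {σ : Type*} {K : Type*} [Field K]

/-- the variable `v` is multiplied by `T ^ w v` -/
noncomputable def Ph (w : σ → ℕ) : MvPolynomial σ K →+* Polynomial (MvPolynomial σ K) :=
  eval₂Hom (Polynomial.C.comp MvPolynomial.C) fun v => Polynomial.C (X v) * Polynomial.X ^ w v

lemma Ph_X (w : σ → ℕ) (v : σ) :
    Ph (K := K) w (X v) = Polynomial.C (X v) * Polynomial.X ^ w v := by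
  simp [Ph]

lemma Ph_monomial (w : σ → ℕ) (n : σ →₀ ℕ) (r : K) :
    Ph w (monomial n r) = Polynomial.C (monomial n r) * Polynomial.X ^ Finsupp.weight w n := by
  rw [Ph, coe_eval₂Hom, eval₂_monomial]
  have h1 : (n.prod fun v k => (Polynomial.C (X v : MvPolynomial σ K) * Polynomial.X ^ w v) ^ k) =
      Polynomial.C (monomial n 1) * Polynomial.X ^ Finsupp.weight w n := by
    rw [Finsupp.weight_apply, Finsupp.sum, Finsupp.prod, monomial_eq, map_one, one_mul, Finsupp.prod,
      map_prod, ← Finset.prod_pow_eq_pow_sum, ← Finset.prod_mul_distrib]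
    refine Finset.prod_congr rfl fun v _ => ?_
    rw [mul_pow, map_pow, ← pow_mul, smul_eq_mul, mul_comm (w v)]
  rw [h1, ← mul_assoc]
  congr 1
  rw [RingHom.comp_apply, ← map_mul, C_mul_monomial, mul_one]

lemma coeff_Ph (w : σ → ℕ) (G : MvPolynomial σ K) (k : ℕ) (μ : σ →₀ ℕ) :
    coeff μ ((Ph w G).coeff k) = if Finsupp.weight w μ = k then coeff μ G else 0 := by
  classical
  induction G using MvPolynomial.induction_on' with
  | monomial n r =>
    rw [Ph_monomial, Polynomial.coeff_C_mul_X_pow]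
    by_cases h : n = μ
    · subst h
      by_cases hk : k = Finsupp.weight w n
      · rw [if_pos hk, if_pos hk.symm]
      · rw [if_neg hk, if_neg (Ne.symm hk), coeff_zero]
    · have h2 : coeff μ (monomial n r) = 0 := by rw [coeff_monomial, if_neg h]
      rw [h2, ite_self]
      split_ifs
      · exact h2
      · exact coeff_zero _
  | add f g hf hg =>
    rw [map_add, Polynomial.coeff_add, coeff_add, hf, hg, coeff_add]
    split_ifs <;> simp

/-- the part of weight `k` is `g` and there is no part of larger weight -/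
def HasTop (w : σ → ℕ) (f : MvPolynomial σ K) (k : ℕ) (g : MvPolynomial σ K) : Prop :=
  (Ph w f).natDegree ≤ k ∧ (Ph w f).coeff k = g

lemma HasTop.mul {w : σ → ℕ} {f f' g g' : MvPolynomial σ K} {k k' : ℕ} (h : HasTop w f k g)
    (h' : HasTop w f' k' g') : HasTop w (f * f') (k + k') (g * g') := by
  refine ⟨?_, ?_⟩
  · rw [map_mul]; exact Polynomial.natDegree_mul_le_of_le h.1 h'.1
  · rw [map_mul, Polynomial.coeff_mul_add_eq_of_natDegree_le h.1 h'.1, h.2, h'.2]

lemma HasTop.one (w : σ → ℕ) : HasTop w (1 : MvPolynomial σ K) 0 1 := by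
  refine ⟨by rw [map_one]; simp, by rw [map_one]; simp⟩

lemma HasTop.pow {w : σ → ℕ} {f g : MvPolynomial σ K} {k : ℕ} (h : HasTop w f k g) (n : ℕ) :
    HasTop w (f ^ n) (n * k) (g ^ n) := by
  induction n with
  | zero => simpa using HasTop.one w
  | succ n ih =>
    rw [pow_succ, pow_succ, Nat.succ_mul]
    exact ih.mul h

lemma HasTop.prod {w : σ → ℕ} {α : Type*} (s : Finset α) {f g : α → MvPolynomial σ K}
    {k : α → ℕ} (h : ∀ i ∈ s, HasTop w (f i) (k i) (g i)) :
    HasTop w (∏ i ∈ s, f i) (∑ i ∈ s, k i) (∏ i ∈ s, g i) := by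
  classical
  induction s using Finset.induction_on with
  | empty => simpa using HasTop.one w
  | insert a s ha ih =>
    rw [Finset.prod_insert ha, Finset.prod_insert ha, Finset.sum_insert ha]
    exact (h a (Finset.mem_insert_self _ _)).mul
      (ih fun i hi => h i (Finset.mem_insert_of_mem hi))

lemma HasTop.add {w : σ → ℕ} {f f' g g' : MvPolynomial σ K} {k : ℕ} (h : HasTop w f k g)
    (h' : HasTop w f' k g') : HasTop w (f + f') k (g + g') := by
  refine ⟨?_, ?_⟩
  · rw [map_add]; exact Polynomial.natDegree_add_le_of_degree_le h.1 h'.1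
  · rw [map_add, Polynomial.coeff_add, h.2, h'.2]

lemma HasTop.neg {w : σ → ℕ} {f g : MvPolynomial σ K} {k : ℕ} (h : HasTop w f k g) :
    HasTop w (-f) k (-g) := by
  refine ⟨?_, ?_⟩
  · rw [map_neg, Polynomial.natDegree_neg]; exact h.1
  · rw [map_neg, Polynomial.coeff_neg, h.2]

lemma HasTop.sub {w : σ → ℕ} {f f' g g' : MvPolynomial σ K} {k : ℕ} (h : HasTop w f k g)
    (h' : HasTop w f' k g') : HasTop w (f - f') k (g - g') := by
  rw [sub_eq_add_neg, sub_eq_add_neg]; exact h.add h'.neg

lemma HasTop.zero (w : σ → ℕ) (k : ℕ) : HasTop w (0 : MvPolynomial σ K) k 0 := by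
  refine ⟨by rw [map_zero]; simp, by rw [map_zero]; simp⟩

lemma HasTop.sum {w : σ → ℕ} {α : Type*} (s : Finset α) {f g : α → MvPolynomial σ K}
    {k : ℕ} (h : ∀ i ∈ s, HasTop w (f i) k (g i)) :
    HasTop w (∑ i ∈ s, f i) k (∑ i ∈ s, g i) := by
  classical
  induction s using Finset.induction_on with
  | empty => simpa using HasTop.zero w k
  | insert a s ha ih =>
    rw [Finset.sum_insert ha, Finset.sum_insert ha]
    exact (h a (Finset.mem_insert_self _ _)).add
      (ih fun i hi => h i (Finset.mem_insert_of_mem hi))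

lemma HasTop.lt {w : σ → ℕ} {f g : MvPolynomial σ K} {k k' : ℕ} (h : HasTop w f k g)
    (hk : k < k') : HasTop w f k' 0 :=
  ⟨h.1.trans hk.le, Polynomial.coeff_eq_zero_of_natDegree_lt (h.1.trans_lt hk)⟩

lemma HasTop.X (w : σ → ℕ) (v : σ) : HasTop w (X v : MvPolynomial σ K) (w v) (X v) := by
  refine ⟨?_, ?_⟩
  · rw [Ph_X]; exact Polynomial.natDegree_C_mul_X_pow_le _ _
  · rw [Ph_X, Polynomial.coeff_C_mul_X_pow, if_pos rfl]

lemma HasTop.XX (w : σ → ℕ) (u v : σ) :
    HasTop w (MvPolynomial.X u * MvPolynomial.X v : MvPolynomial σ K) (w u + w v)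
      (MvPolynomial.X u * MvPolynomial.X v) := (HasTop.X w u).mul (HasTop.X w v)

lemma HasTop.coeff_ne {w : σ → ℕ} {f g : MvPolynomial σ K} {k : ℕ} (h : HasTop w f k g)
    {μ : σ →₀ ℕ} (hμ : coeff μ g ≠ 0) : coeff μ f ≠ 0 := by
  rw [← h.2, coeff_Ph] at hμ
  intro h0
  rw [h0, ite_self] at hμ
  exact hμ rfl

/-- the top part of a determinant -/
lemma HasTop.det {w : σ → ℕ} {ρ : Type*} [Fintype ρ] [DecidableEq ρ]
    (N : Matrix ρ ρ (MvPolynomial σ K)) (p W : ρ → ℕ) (t : ρ → MvPolynomial σ K)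
    (hd : ∀ g, HasTop w (N g g) (W g) (t g))
    (ho : ∀ f g, f ≠ g → N f g = 0 ∨ (Ph w (N f g)).natDegree + p g < p f + W g) :
    HasTop w N.det (∑ g, W g) (∏ g, t g) := by
  rw [Matrix.det_apply]
  have h1 : ∀ s : Equiv.Perm ρ, HasTop w (Equiv.Perm.sign s • ∏ g, N (s g) g) (∑ g, W g)
      (if s = 1 then ∏ g, t g else 0) := by
    intro s
    by_cases hs : s = 1
    · subst hs
      rw [if_pos rfl, Equiv.Perm.sign_one, one_smul]
      exact HasTop.prod _ fun g _ => by simpa using hd g
    · rw [if_neg hs]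
      by_cases hz : ∃ g, N (s g) g = 0
      · obtain ⟨g, hg⟩ := hz
        have h0 : ∏ g, N (s g) g = 0 := Finset.prod_eq_zero (Finset.mem_univ g) hg
        rw [h0, smul_zero]
        exact HasTop.zero _ _
      · push Not at hz
        have h2 : ∀ g, (Ph w (N (s g) g)).natDegree + p g ≤ p (s g) + W g := by
          intro g
          by_cases hg : s g = g
          · rw [hg]; have := (hd g).1; omega
          · exact ((ho _ _ hg).resolve_left (hz g)).le
        have h3 : ∃ g, s g ≠ g := by
          by_contra hcon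
          push Not at hcon
          exact hs (Equiv.ext hcon)
        have h4 : ∑ g, ((Ph w (N (s g) g)).natDegree + p g) < ∑ g, (p (s g) + W g) := by
          obtain ⟨g, hg⟩ := h3
          exact Finset.sum_lt_sum (fun g _ => h2 g)
            ⟨g, Finset.mem_univ g, (ho _ _ hg).resolve_left (hz g)⟩
        rw [Finset.sum_add_distrib, Finset.sum_add_distrib, Equiv.sum_comp s p] at h4
        have h5 : (Ph w (∏ g, N (s g) g)).natDegree < ∑ g, W g := by
          rw [map_prod]
          refine (Polynomial.natDegree_prod_le _ _).trans_lt ?_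
          omega
        have h6 : HasTop w (∏ g, N (s g) g) (∑ g, W g) 0 :=
          ⟨h5.le, Polynomial.coeff_eq_zero_of_natDegree_lt h5⟩
        rcases Int.units_eq_one_or (Equiv.Perm.sign s) with h7 | h7
        · rw [h7, one_smul]; exact h6
        · rw [h7, Units.neg_smul, one_smul]; simpa using h6.neg
  have h8 := HasTop.sum Finset.univ (fun s _ => h1 s)
  rw [Finset.sum_ite_eq' Finset.univ (1 : Equiv.Perm ρ) (fun _ => ∏ g, t g)] at h8
  simpa using h8

end

end Pool.Agent.K4H49.FR
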